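import Pool.Agent.Helper76_LAG.All

/-!
# LLG: the final stage (inner form of the theorem on graphs of logarithmic girth)
-/

set_option autoImplicit false

namespace Pool.Agent.LAG

open SimpleGraph

/-- FININNER: `M` is a given part of the last forest (components of at most three vertices), `X0` a
set of vertices which are already used and far apart. `G \ M` is the union of `k` linear forests and
of a set `N` of edges far from `X0`, at most one at every component of `M`. -/
def FinInnerStmt : Prop := ∀ (V : Type) [Fintype V] (G M : SimpleGraph V) (X0 : Set V)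
    (Δ h k : ℕ), (∀ v, (G.neighborSet v).ncard ≤ Δ) → 2 ^ 273 * (Δ + 2) ^ 122 ≤ 3 ^ h →
    Big G (2 * h) → M ≤ G → (∀ a b, M.Reachable a b → near M 2 a b) →
    (∀ a, {b | M.Reachable a b}.ncard ≤ 3) →
    (∀ x ∈ X0, ∀ y ∈ X0, x ≠ y → ¬ near G 82 x y) →
    (∀ v, ((G \ M).neighborSet v).ncard ≤ 2 * k) → 2 * k ≤ Δ →
    ∃ (F : Fin k → SimpleGraph V) (N : SimpleGraph V),
      (∀ i, (F i).IsAcyclic ∧ ∀ v, ((F i).neighborSet v).ncard ≤ 2) ∧
      (⨆ i, F i) ⊔ N = G \ M ∧ (∀ i, Disjoint (F i) N) ∧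
      (∀ u v, N.Adj u v → ∀ x ∈ X0, ¬ near G 3 u x) ∧
      ∀ u v u' v', N.Adj u v → N.Adj u' v' → M.Reachable u u' → s(u, v) = s(u', v')

namespace H53

open Pool.Agent.LAG.Fin

lemma num_cond' {Δ h k : ℕ} (hk : 2 * k ≤ Δ) (hh : 202 ≤ h) :
    16 * (12 * (2 ^ 11 * (Δ + 2)) + 12 * k * h) ≤ h * (2 ^ 11 * (Δ + 2)) := by
  have h1 : 12 * k * h * 16 ≤ 96 * (Δ + 2) * h := by
    have : 12 * k * 16 ≤ 96 * (Δ + 2) := by omega
    calc 12 * k * h * 16 = (12 * k * 16) * h := by ring
      _ ≤ _ := Nat.mul_le_mul_right _ this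
  have h2 : 202 * (Δ + 2) ≤ h * (Δ + 2) := Nat.mul_le_mul_right _ hh
  nlinarith

/-- FININNER -/
theorem finInner (hPar : ParStmt) (hMain : MainStmt) (hPet : PetStmt) (hHcy : HcyStmt) :
    FinInnerStmt := by
  classical
  intro V _ G M U Δ h k hdeg hnum hbig hMG hMr hM3 hUU hGM hkΔ
  have hh := h_large hnum
  -- the rest of the graph
  let G1 : SimpleGraph V := G \ M
  have hG1 : G1 ≤ G := sdiff_le
  obtain ⟨c, hck, hc2⟩ := hPet V G1 k hGM
  let H : Fin (k / 2) → SimpleGraph V := fun q => colg G1 c (fun j => j / 2 = q.1)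
  have hHG : ∀ q, H q ≤ G := fun q => (colg_le _ _ _).trans hG1
  have hH4 : ∀ q v, ((H q).neighborSet v).ncard ≤ 4 := fun q v => colg_deg2 G1 c hc2 q.1 v
  obtain ⟨F, hFH, hFd, hF2, hFb, hDD, hDU⟩ := hMain V Δ h (2 ^ 12 * (Δ + 2))
    (2 ^ 45 * (Δ + 2) ^ 24) (2 ^ 36 * (Δ + 2) ^ 23) (hPar Δ h hnum) (by omega) G hbig hdeg
    (Fin (k / 2)) (by rw [Fintype.card_fin]; omega) H hHG hH4 U hUU
  -- dead edges
  let D : SimpleGraph V := ⨆ q, (H q \ (F q false ⊔ F q true))
  have hDadj : ∀ u v, D.Adj u v ↔ ∃ q, (H q \ (F q false ⊔ F q true)).Adj u v := by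
    intro u v; simp only [D, SimpleGraph.iSup_adj]
  have hDG1 : D ≤ G1 := iSup_le fun q => sdiff_le.trans (colg_le _ _ _)
  -- centres
  let X : Set V := U ∪ {x | ∃ e ∈ D.edgeSet, x = e.out.1}
  have hDe : ∀ e ∈ D.edgeSet, ∃ y, e = s(e.out.1, y) ∧ D.Adj e.out.1 y := by
    intro e he
    have h1 : e.out.1 ∈ e := Sym2.out_fst_mem e
    obtain ⟨y, hy⟩ := h1
    refine ⟨y, hy, ?_⟩
    rw [hy] at he
    exact he
  have hXX : ∀ x ∈ X, ∀ y ∈ X, x ≠ y → ¬ near G 18 x y := by
    have key : ∀ x ∈ U, ∀ y, (∃ e ∈ D.edgeSet, y = e.out.1) → ¬ near G 18 x y := by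
      rintro x hx y ⟨e, he, rfl⟩ hn
      obtain ⟨y', hy', hadj⟩ := hDe e he
      obtain ⟨q, hq⟩ := (hDadj _ _).1 hadj
      exact hDU q _ _ hq x hx (near_mono (by norm_num) (near_symm hn))
    rintro x (hx | hx) y (hy | hy) hxy hn
    · exact hUU x hx y hy hxy (near_mono (by norm_num) hn)
    · exact key x hx y hy hn
    · exact key y hy x hx (near_symm hn)
    · obtain ⟨e, he, rfl⟩ := hx
      obtain ⟨e', he', rfl⟩ := hy
      obtain ⟨a, ha, ha2⟩ := hDe e he
      obtain ⟨a', ha', ha2'⟩ := hDe e' he'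
      obtain ⟨q, hq⟩ := (hDadj _ _).1 ha2
      obtain ⟨q', hq'⟩ := (hDadj _ _).1 ha2'
      refine hDD q _ _ q' _ _ hq hq' ?_ hn
      rw [← ha, ← ha']
      rintro rfl
      exact hxy rfl
  -- the classes
  let A : Fin k → SimpleGraph V := fun j =>
    if hj : j.1 / 2 < k / 2 then F ⟨j.1 / 2, hj⟩ (decide (j.1 % 2 = 1))
    else colg G1 c (fun i => i = j.1)
  let kd : Fin k → Bool := fun j => !decide (j.1 / 2 < k / 2)
  have hA1 : ∀ (j : Fin k) (hj : j.1 / 2 < k / 2),
      A j = F ⟨j.1 / 2, hj⟩ (decide (j.1 % 2 = 1)) := fun j hj => dif_pos hj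
  have hA2 : ∀ (j : Fin k), ¬ j.1 / 2 < k / 2 → A j = colg G1 c (fun i => i = j.1) :=
    fun j hj => dif_neg hj
  have hAcol : ∀ j u v, (A j).Adj u v → G1.Adj u v ∧ c s(u, v) / 2 = j.1 / 2 := by
    intro j u v huv
    by_cases hj : j.1 / 2 < k / 2
    · rw [hA1 j hj] at huv
      have := hFH _ _ huv
      exact ⟨this.1, this.2⟩
    · rw [hA2 j hj] at huv
      refine ⟨huv.1, ?_⟩
      have : c s(u, v) = j.1 := huv.2
      rw [this]
  have hAG : ∀ j, A j ≤ G := fun j u v huv => hG1 (hAcol j u v huv).1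
  have hAd : ∀ i j, i ≠ j → Disjoint (A i) (A j) := by
    intro i j hij
    rw [disjoint_iff_inf_le]
    intro u v huv
    exfalso
    rw [SimpleGraph.inf_adj] at huv
    have h1 := (hAcol i u v huv.1).2
    have h2 := (hAcol j u v huv.2).2
    have h3 : i.1 / 2 = j.1 / 2 := by omega
    have hne : i.1 ≠ j.1 := fun e => hij (Fin.ext e)
    by_cases hi : i.1 / 2 < k / 2
    · have hj : j.1 / 2 < k / 2 := by omega
      rw [hA1 i hi, hA1 j hj] at huv
      have e : (⟨i.1 / 2, hi⟩ : Fin (k / 2)) = ⟨j.1 / 2, hj⟩ := by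
        ext; exact h3
      rw [e] at huv
      have hd := hFd ⟨j.1 / 2, hj⟩
      rw [disjoint_iff_inf_le] at hd
      rcases Nat.mod_two_eq_zero_or_one i.1 with hi2 | hi2 <;>
        rcases Nat.mod_two_eq_zero_or_one j.1 with hj2 | hj2
      · omega
      · have e1 : decide (i.1 % 2 = 1) = false := by simp [hi2]
        have e2 : decide (j.1 % 2 = 1) = true := by simp [hj2]
        rw [e1, e2] at huv
        exact hd (show (F _ false ⊓ F _ true).Adj u v from huv)
      · have e1 : decide (i.1 % 2 = 1) = true := by simp [hi2]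
        have e2 : decide (j.1 % 2 = 1) = false := by simp [hj2]
        rw [e1, e2] at huv
        exact hd (show (F _ false ⊓ F _ true).Adj u v from ⟨huv.2, huv.1⟩)
      · omega
    · have hi' := i.2
      have hj' := j.2
      omega
  have hA2' : ∀ j v, ((A j).neighborSet v).ncard ≤ 2 := by
    intro j v
    by_cases hj : j.1 / 2 < k / 2
    · rw [hA1 j hj]; exact hF2 _ _ _
    · rw [hA2 j hj]; exact colg_deg G1 c hc2 _ v
  have hAb : ∀ j, Big (A j) (if kd j then 2 * h else 2 * (2 ^ 11 * (Δ + 2))) := by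
    intro j
    by_cases hj : j.1 / 2 < k / 2
    · have : kd j = false := by simp [kd, hj]
      rw [this, hA1 j hj]
      have := hFb ⟨j.1 / 2, hj⟩ (decide (j.1 % 2 = 1))
      refine this.mono ?_
      simp only [Bool.false_eq_true, if_false]
      omega
    · have : kd j = true := by simp [kd, hj]
      rw [this]
      simp only [if_true]
      exact hbig.le (hAG j)
  have hkd : ∀ i j, kd i = true → kd j = true → i = j := by
    intro i j hi hj
    have h1 : ¬ i.1 / 2 < k / 2 := by simpa [kd] using hi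
    have h2 : ¬ j.1 / 2 < k / 2 := by simpa [kd] using hj
    have hi' := i.2
    have hj' := j.2
    ext
    omega
  obtain ⟨S, hSA, hSac, hSX, hSS⟩ := hHcy V G M k h (2 ^ 11 * (Δ + 2)) kd A X
    (hbig.mono (by omega)) hXX hAG hAd hA2' hAb hkd hM3 (by omega) (by omega) (num_cond' hkΔ hh)
  -- the last forest
  let N : SimpleGraph V := D ⊔ fromEdgeSet S
  have hN : ∀ u v, N.Adj u v ↔ D.Adj u v ∨ (s(u, v) ∈ S ∧ u ≠ v) := by
    intro u v; simp only [N, SimpleGraph.sup_adj, SimpleGraph.fromEdgeSet_adj]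
  have hSG1 : ∀ u v, s(u, v) ∈ S → G1.Adj u v := by
    intro u v huv
    obtain ⟨j, hj⟩ := hSA _ huv
    exact (hAcol j u v hj).1
  have hNG1 : N ≤ G1 := by
    intro u v huv
    rcases (hN u v).1 huv with h1 | h1
    · exact hDG1 h1
    · exact hSG1 u v h1.1
  have hNU : ∀ u v, N.Adj u v → u ∉ U := by
    intro u v huv hu
    rcases (hN u v).1 huv with h1 | h1
    · obtain ⟨q, hq⟩ := (hDadj _ _).1 h1
      exact hDU q u v hq u hu (near_refl _ _)
    · exact hSX _ h1.1 u (Sym2.mem_mk_left _ _) u (Or.inl hu) (near_refl _ _)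
  have hcross : ∀ u v u' v', D.Adj u v → s(u', v') ∈ S → ¬ near G 2 u u' := by
    intro u v u' v' h1 h2 hn
    obtain ⟨y, hy, hy2⟩ := hDe s(u, v) h1
    have hx0 : ∀ x, s(u, v) = s(x, y) → D.Adj x y → near G 1 u x := by
      intro x hxy hD
      have h3 : u ∈ s(u, v) := Sym2.mem_mk_left _ _
      rw [hxy] at h3
      rcases Sym2.mem_iff.1 h3 with h4 | h4
      · rw [h4]; exact near_refl _ _
      · rw [h4]
        exact near_symm (near_adj (hG1 (hDG1 hD)))
    have hx : near G 1 u (Quot.out s(u, v)).1 := hx0 _ hy hy2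
    exact hSX _ h2 u' (Sym2.mem_mk_left _ _) _ (Or.inr ⟨s(u, v), h1, rfl⟩)
      (near_trans (near_symm hn) hx)
  refine ⟨fun i => (A i).deleteEdges S, N, fun i => ⟨hSac i, fun v => deleteEdges_deg _ _
    (hA2' _) v⟩, ?_, ?_, ?_, ?_⟩
  · apply le_antisymm
    · exact sup_le (iSup_le fun i => ((A i).deleteEdges_le S).trans
        fun u v huv => (hAcol i u v huv).1) hNG1
    · intro u v hg1
      rw [SimpleGraph.sup_adj, SimpleGraph.iSup_adj]
      by_cases hS : s(u, v) ∈ S
      · exact Or.inr ((hN u v).2 (Or.inr ⟨hS, hg1.ne⟩))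
      have hi := hck s(u, v) hg1
      have hput : ∀ j : Fin k, (A j).Adj u v →
          (∃ i : Fin k, ((A i).deleteEdges S).Adj u v) ∨ N.Adj u v := by
        intro j hj
        refine Or.inl ⟨j, ?_⟩
        rw [SimpleGraph.deleteEdges_adj]
        exact ⟨hj, hS⟩
      by_cases hq : c s(u, v) / 2 < k / 2
      · by_cases hF : ∃ b, (F ⟨c s(u, v) / 2, hq⟩ b).Adj u v
        · obtain ⟨b, hb⟩ := hF
          have hb2 : (if b then 1 else 0) ≤ 1 := by split_ifs <;> omega
          refine hput ⟨2 * (c s(u, v) / 2) + (if b then 1 else 0), by omega⟩ ?_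
          have e1 : (2 * (c s(u, v) / 2) + (if b then 1 else 0)) / 2 = c s(u, v) / 2 := by
            split_ifs <;> omega
          rw [hA1 _ (by rw [e1]; exact hq)]
          have e2 : decide ((2 * (c s(u, v) / 2) + (if b then 1 else 0)) % 2 = 1) = b := by
            cases b <;> simp
          simp only [e1, e2]
          exact hb
        · push Not at hF
          refine Or.inr ((hN u v).2 (Or.inl ((hDadj u v).2 ⟨⟨c s(u, v) / 2, hq⟩, ?_⟩)))
          rw [SimpleGraph.sdiff_adj, SimpleGraph.sup_adj]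
          exact ⟨⟨hg1, rfl⟩, by rintro (h1 | h1); exacts [hF false h1, hF true h1]⟩
      · refine hput ⟨c s(u, v), hi⟩ ?_
        rw [hA2 _ hq]
        exact ⟨hg1, rfl⟩
  · intro i
    rw [disjoint_iff_inf_le]
    intro u v huv
    exfalso
    rw [SimpleGraph.inf_adj, SimpleGraph.deleteEdges_adj] at huv
    rcases (hN u v).1 huv.2 with h1 | h1
    · obtain ⟨q, hq⟩ := (hDadj _ _).1 h1
      rw [SimpleGraph.sdiff_adj, SimpleGraph.sup_adj] at hq
      have hA := huv.1.1
      have hc1 := (hAcol i u v hA).2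
      have hc3 : c s(u, v) / 2 = q.1 := hq.1.2
      by_cases hi : i.1 / 2 < k / 2
      · rw [hA1 i hi] at hA
        have e : (⟨i.1 / 2, hi⟩ : Fin (k / 2)) = q := by
          ext
          show i.1 / 2 = q.1
          omega
        rw [e] at hA
        by_cases h2 : i.1 % 2 = 1
        · simp only [h2, decide_true] at hA
          exact hq.2 (Or.inr hA)
        · simp only [h2, decide_false] at hA
          exact hq.2 (Or.inl hA)
      · have := q.2
        omega
    · exact huv.1.2 h1.1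
  · intro u v huv x hx hn
    rcases (hN u v).1 huv with h1 | h1
    · obtain ⟨q, hq⟩ := (hDadj _ _).1 h1
      exact hDU q u v hq x hx (near_mono (by norm_num) hn)
    · exact hSX _ h1.1 u (Sym2.mem_mk_left _ _) x (Or.inl hx) hn
  · intro u v u' v' h1 h2 hr
    have hn : near G 2 u u' := near_le hMG (hMr _ _ hr)
    rcases (hN u v).1 h1 with h1 | h1 <;> rcases (hN u' v').1 h2 with h2 | h2
    · by_contra hne
      obtain ⟨q, hq⟩ := (hDadj _ _).1 h1
      obtain ⟨q', hq'⟩ := (hDadj _ _).1 h2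
      exact hDD q u v q' u' v' hq hq' hne (near_mono (by norm_num) hn)
    · exact absurd hn (hcross u v u' v' h1 h2.1)
    · exact absurd (near_symm hn) (hcross u' v' u v h2 h1.1)
    · exact hSS _ h1.1 _ h2.1 u (Sym2.mem_mk_left _ _) u' (Sym2.mem_mk_left _ _) hr

/-- FININNER, unconditional. -/
theorem finInnerAll : FinInnerStmt :=
  finInner par mainAll pet (hcy (hit alll prd) (avc (zone uniq) cycLen) cmp1 cycLen)

end H53

end Pool.Agent.LAG
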