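import Pool.Agent.Helper76_LAG.All

/-!
# LLG: a set of edges which hits all cycles, with a general conflict relation
-/

set_option autoImplicit false

namespace Pool.Agent.LAG

open SimpleGraph

/-- CUT: a set `S` of edges which hits all cycles of the graphs `A j`; the ends of these edges are
in the set `Fr`, and different edges of `S` have no ends in relation `R`. -/
def CutStmt : Prop := ∀ (V : Type) [Fintype V] (k N c : ℕ) (A : Fin k → SimpleGraph V)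
    (Fr : Set V) (R : V → V → Prop), (∀ x y, R x y → R y x) →
    (∀ i j, i ≠ j → Disjoint (A i) (A j)) → (∀ j v, ((A j).neighborSet v).ncard ≤ 2) →
    (∀ j (z : ℕ → V) (m : ℕ), IsC (A j) z m →
      N ≤ {t : ℕ | t < m ∧ z t ∈ Fr ∧ z (t + 1) ∈ Fr}.ncard) →
    (∀ v, {x : V | R x v}.ncard ≤ c) → 1 ≤ N → 64 * (k * c) ≤ N →
    ∃ S : Set (Sym2 V), (∀ e ∈ S, ∃ j, e ∈ (A j).edgeSet) ∧
      (∀ j, ((A j).deleteEdges S).IsAcyclic) ∧ (∀ e ∈ S, ∀ u ∈ e, u ∈ Fr) ∧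
      ∀ e ∈ S, ∀ e' ∈ S, ∀ u ∈ e, ∀ u' ∈ e', R u u' → e = e'

namespace H53

open Hcy

lemma conf_card' {V : Type} [Fintype V] (R : V → V → Prop) {k : ℕ} (A : Fin k → SimpleGraph V)
    (hA : ∀ j v, ((A j).neighborSet v).ncard ≤ 2) (c : ℕ) (hR : ∀ v, {x : V | R x v}.ncard ≤ c)
    (ε : Sym2 V) :
    {e : Sym2 V | (∃ u ∈ ε, ∃ u' ∈ e, R u' u) ∧ ∃ j, e ∈ (A j).edgeSet}.ncard ≤ 4 * (k * c) := by
  have hsub : {e : Sym2 V | (∃ u ∈ ε, ∃ u' ∈ e, R u' u) ∧ ∃ j, e ∈ (A j).edgeSet} ⊆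
      ⋃ u ∈ {u : V | u ∈ ε}, ⋃ u' ∈ {b | R b u}, ⋃ j ∈ (Set.univ : Set (Fin k)),
        {e : Sym2 V | u' ∈ e ∧ e ∈ (A j).edgeSet} := by
    rintro e ⟨⟨u, hu, u', hu', hr⟩, j, he⟩
    simp only [Set.mem_iUnion]
    exact ⟨u, hu, u', hr, j, Set.mem_univ _, hu', he⟩
  have h1 : ∀ u' : V, (⋃ j ∈ (Set.univ : Set (Fin k)),
      {e : Sym2 V | u' ∈ e ∧ e ∈ (A j).edgeSet}).ncard ≤ k * 2 := fun u' => by
    have h := biUnion_card (Set.univ : Set (Fin k)) (Set.toFinite _)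
      (fun j => {e : Sym2 V | u' ∈ e ∧ e ∈ (A j).edgeSet}) 2
      (fun j _ => (inc_card (A j) u').trans (hA j u'))
    rwa [Set.ncard_univ, Nat.card_fin] at h
  have h2 : ∀ u : V, (⋃ u' ∈ {b | R b u}, ⋃ j ∈ (Set.univ : Set (Fin k)),
      {e : Sym2 V | u' ∈ e ∧ e ∈ (A j).edgeSet}).ncard ≤ c * (k * 2) := fun u =>
    (biUnion_card {b | R b u} (Set.toFinite _) _ (k * 2)
      (fun u' _ => h1 u')).trans (Nat.mul_le_mul_right _ (hR u))
  have h3 := (biUnion_card {u : V | u ∈ ε} (Set.toFinite _) (fun u => ⋃ u' ∈ {b | R b u},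
    ⋃ j ∈ (Set.univ : Set (Fin k)), {e : Sym2 V | u' ∈ e ∧ e ∈ (A j).edgeSet}) (c * (k * 2))
    (fun u _ => h2 u)).trans (Nat.mul_le_mul_right _ (mem_card ε).1)
  have h4 := Set.ncard_le_ncard hsub (Set.toFinite _)
  calc _ ≤ _ := h4
    _ ≤ 2 * (c * (k * 2)) := h3
    _ = 4 * (k * c) := by ring

theorem cut (hhit : HitStmt) (hcmp : Cmp1Stmt) : CutStmt := by
  classical
  intro V _ k N c A Fr R hRs hdis hA2 hcyc hRc hN1 hnum
  have hdata : ∀ i : Item A, ∃ (z : ℕ → V) (m : ℕ) (g : ℕ → ℕ), IsC (A i.1.1) z m ∧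
      (A i.1.1).Reachable i.1.2 (z 0) ∧
      (∀ a, a < N → g a < m ∧ z (g a) ∈ Fr ∧ z (g a + 1) ∈ Fr) ∧
      ∀ a b, a < N → b < N → g a = g b → a = b := by
    intro i
    obtain ⟨z, m, hz, hr⟩ := i.2.2
    obtain ⟨g, hg1, hg2⟩ := enum {t : ℕ | t < m ∧ z t ∈ Fr ∧ z (t + 1) ∈ Fr}
      ((Set.finite_lt_nat m).subset (fun t ht => ht.1)) N (hcyc i.1.1 z m hz)
    exact ⟨z, m, g, hz, hr, fun a ha => hg1 a ha, hg2⟩
  choose z m g hz hr hg hgi using hdata
  let e : Item A → ℕ → Sym2 V := fun i a => s(z i (g i a), z i (g i a + 1))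
  let Rr : Item A → ℕ → Item A → ℕ → Prop := fun i a j b =>
    ∃ u ∈ e i a, ∃ u' ∈ e j b, R u' u
  have hmem : ∀ i a, a < N → e i a ∈ (A i.1.1).edgeSet := by
    intro i a ha
    exact (hz i).2.1 (g i a) (hg i a ha).1
  have hinj : ∀ i a j b, a < N → b < N → e i a = e j b → i = j ∧ a = b := by
    intro i a j b ha hb hab
    have h1 := hmem i a ha
    have h2 := hmem j b hb
    have hj : i.1.1 = j.1.1 := by
      by_contra hne
      have h3 := hdis _ _ hne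
      rw [← disjoint_edgeSet, Set.disjoint_left] at h3
      exact h3 h1 (hab ▸ h2)
    have hri : (A i.1.1).Reachable i.1.2 (z i (g i a)) :=
      (hr i).trans (isC_reach (hz i) _ (hg i a ha).1.le)
    have hrj : (A i.1.1).Reachable j.1.2 (z i (g i a)) := by
      rw [hj]
      have hm' : z i (g i a) ∈ e j b := by
        rw [← hab]
        exact Sym2.mem_mk_left _ _
      rcases Sym2.mem_iff.mp hm' with h4 | h4
      · rw [h4]
        exact (hr j).trans (isC_reach (hz j) _ (hg j b hb).1.le)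
      · rw [h4]
        exact (hr j).trans (isC_reach (hz j) _ (hg j b hb).1)
    have hrep : rep (A i.1.1) i.1.2 = rep (A i.1.1) j.1.2 := rep_eq _ (hri.trans hrj.symm)
    have hij : i = j := by
      apply Subtype.ext
      apply Prod.ext hj
      rw [← i.2.1, hrep, hj, j.2.1]
    subst hij
    refine ⟨rfl, ?_⟩
    exact hgi i a b ha hb (isC_edge_inj (hz i) _ _ (hg i a ha).1 (hg i b hb).1 hab)
  have hcount : ∀ i a, {p : Item A × ℕ | p.2 < N ∧ Rr i a p.1 p.2}.ncard ≤ 4 * (k * c) := by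
    intro i a
    refine le_trans ?_ (conf_card' R A hA2 c hRc (e i a))
    refine Set.ncard_le_ncard_of_injOn (fun p => e p.1 p.2) ?_ ?_ (Set.toFinite _)
    · rintro ⟨j, b⟩ ⟨h2, h3⟩
      exact ⟨h3, j.1.1, hmem j b h2⟩
    · rintro ⟨j, b⟩ ⟨h2, h3⟩ ⟨j', b'⟩ ⟨h2', h3'⟩ heq
      have h4 := hinj j b j' b' h2 h2' heq
      rw [Prod.mk.injEq]
      exact h4
  obtain ⟨f, hf1, hf2⟩ := hhit (Item A) N N (4 * (k * c)) 0 (fun _ => true) Rr hN1 hN1
    (by
      have h : 16 * (4 * (k * c)) ≤ N := by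
        calc 16 * (4 * (k * c)) = 64 * (k * c) := by ring
          _ ≤ N := hnum
      calc 16 * (4 * (k * c) * N + 0 * N) = 16 * (4 * (k * c)) * N := by ring
        _ ≤ N * N := Nat.mul_le_mul_right _ h)
    (by
      rintro i a j b ⟨u, hu, u', hu', hruu⟩
      exact ⟨u', hu', u, hu, hRs _ _ hruu⟩)
    (by
      intro i a _
      constructor
      · refine le_trans (le_of_eq ?_) (hcount i a)
        congr 1
        ext p
        simp
      · simp)
  simp only [if_true] at hf1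
  refine ⟨{ε | ∃ i, ε = e i (f i)}, ?_, ?_, ?_, ?_⟩
  · rintro ε ⟨i, rfl⟩
    exact ⟨i.1.1, hmem i (f i) (hf1 i)⟩
  · intro j
    apply hcmp V (A j) _ (hA2 j)
    intro v c hc
    have hrr : rep (A j) (rep (A j) v) = rep (A j) v := rep_eq _ (rep_reach _ v)
    let i : Item A := ⟨(j, rep (A j) v), hrr, c.getVert, c.length, isC_of_cycle (A j) c hc, by
      rw [Walk.getVert_zero]
      exact rep_reach _ v⟩
    refine ⟨e i (f i), ⟨i, rfl⟩, hmem i (f i) (hf1 i), z i (g i (f i)), Sym2.mem_mk_left _ _, ?_⟩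
    exact (rep_reach (A j) v).symm.trans ((hr i).trans
      (isC_reach (hz i) _ (hg i (f i) (hf1 i)).1.le))
  · rintro ε ⟨i, rfl⟩ u hu
    have hfar := (hg i (f i) (hf1 i)).2
    rcases Sym2.mem_iff.mp hu with h4 | h4
    · rw [h4]; exact hfar.1
    · rw [h4]; exact hfar.2
  · rintro ε ⟨i, rfl⟩ ε' ⟨j, rfl⟩ u hu u' hu' hruu
    by_cases hij : i = j
    · rw [hij]
    · exact absurd ⟨u, hu, u', hu', hRs _ _ hruu⟩ (hf2 i j hij)

/-- CUT, unconditional. -/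
theorem cutAll : CutStmt := cut (hit alll prd) cmp1

end H53

end Pool.Agent.LAG
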