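import Pool.Agent.Helper76_LAG.All

/-!
# LLG: paths with many vertices near a sparse set (PATH EVENTS)
-/

set_option autoImplicit false

namespace Pool.Agent.LAG

open SimpleGraph

/-- ENT: the step from `a` to `b` enters the ball of radius `ρ` around some point of `X`. -/
def Ent {V : Type} (Γ : SimpleGraph V) (ρ : ℕ) (X : Set V) (a b : V) : Prop :=
  ∃ x ∈ X, near Γ ρ b x ∧ ¬ near Γ ρ a x

/-- PCNT: the number of paths of `R` with `n` edges through the vertex `y` (at position `p`) which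
have more than `(e + 1) (2 ρ + 1)` vertices at distance at most `ρ` from a set `X` which has at most
`q` points in each ball of radius `ρ + 1`. -/
def PcntStmt : Prop := ∀ (V : Type) [Fintype V] (Γ R : SimpleGraph V) (X : Set V) (ρ d q : ℕ),
    Big Γ (4 * ρ + 2) → R ≤ Γ → (∀ v, (R.neighborSet v).ncard ≤ d) →
    (∀ v, {x : V | x ∈ X ∧ near Γ (ρ + 1) v x}.ncard ≤ q) →
    ∀ (n p e : ℕ) (y : V), p ≤ n →
    Nat.card {z : Fin (n + 1) → V // IsP R (cyc z) n ∧ cyc z p = y ∧
      (e + 1) * (2 * ρ + 1) < {t : ℕ | t ≤ n ∧ ∃ x ∈ X, near Γ ρ (cyc z t) x}.ncard} ≤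
      2 ^ n * (q ^ e * d ^ (n - e))

/-- PCNTD: the same count for the paths through a given dart `(u, v)` at a given position. -/
def PcntDStmt : Prop := ∀ (V : Type) [Fintype V] (Γ R : SimpleGraph V) (X : Set V) (ρ d q : ℕ),
    Big Γ (4 * ρ + 2) → R ≤ Γ → (∀ v, (R.neighborSet v).ncard ≤ d) →
    (∀ v, {x : V | x ∈ X ∧ near Γ (ρ + 1) v x}.ncard ≤ q) →
    ∀ (n p e : ℕ) (u v : V), p < n →
    Nat.card {z : Fin (n + 1) → V // IsP R (cyc z) n ∧ (cyc z p = u ∧ cyc z (p + 1) = v) ∧
      (e + 1) * (2 * ρ + 1) < {t : ℕ | t ≤ n ∧ ∃ x ∈ X, near Γ ρ (cyc z t) x}.ncard} ≤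
      2 ^ n * (q ^ e * d ^ (n - 1 - e))

/-- BLOCK: if every path with `m` edges has at most `b` vertices in `Bd`, then long paths and
cycles have few vertices in `Bd`. -/
def BlockStmt : Prop := ∀ (V : Type) (H : SimpleGraph V) (Bd : Set V) (m b : ℕ),
    (∀ z, IsP H z m → {t : ℕ | t ≤ m ∧ z t ∈ Bd}.ncard ≤ b) →
    (∀ z n, m ≤ n → IsP H z n → {t : ℕ | t ≤ n ∧ z t ∈ Bd}.ncard ≤ b * (n / (m + 1) + 1)) ∧
    (∀ z n, m < n → IsC H z n → {t : ℕ | t < n ∧ z t ∈ Bd}.ncard ≤ b * (n / (m + 1) + 1))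

namespace H53

variable {V : Type}

lemma ent_card [Fintype V] (Γ R : SimpleGraph V) (X : Set V) (ρ q : ℕ) (hG : Big Γ (4 * ρ + 2))
    (hR : R ≤ Γ) (hq : ∀ v, {x : V | x ∈ X ∧ near Γ (ρ + 1) v x}.ncard ≤ q) (a : V) :
    {b : V | R.Adj a b ∧ Ent Γ ρ X a b}.ncard ≤ q := by
  classical
  refine le_trans ?_ (hq a)
  have hx : ∀ b, b ∈ {b : V | R.Adj a b ∧ Ent Γ ρ X a b} → ∃ x, x ∈ X ∧ near Γ ρ b x ∧
      ¬ near Γ ρ a x := by
    intro b hb
    obtain ⟨x, h1, h2, h3⟩ := hb.2
    exact ⟨x, h1, h2, h3⟩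
  choose f hf using hx
  let F : V → V := fun b => if hb : b ∈ {b : V | R.Adj a b ∧ Ent Γ ρ X a b} then f b hb else b
  have hF : ∀ b (hb : b ∈ {b : V | R.Adj a b ∧ Ent Γ ρ X a b}), F b = f b hb := by
    intro b hb
    simp only [F]
    rw [dif_pos hb]
  have key : ∀ b (hb : b ∈ {b : V | R.Adj a b ∧ Ent Γ ρ X a b}),
      ∃ p : Γ.Walk a (F b), p.IsPath ∧ p.length ≤ ρ + 1 ∧ p.getVert 1 = b := by
    intro b hb
    obtain ⟨h1, ⟨w, hw⟩, h3⟩ := hf b hb
    rw [hF b hb]
    have h4 : a ∉ w.bypass.support := by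
      intro h
      apply h3
      refine ⟨w.bypass.dropUntil a h, ?_⟩
      have := w.length_bypass_le_length
      have := w.bypass.length_dropUntil_le_length h
      omega
    refine ⟨Walk.cons (hR hb.1) w.bypass, ?_, ?_, ?_⟩
    · rw [Walk.cons_isPath_iff]
      exact ⟨w.bypass_isPath, h4⟩
    · rw [Walk.length_cons]
      have := w.length_bypass_le_length
      omega
    · rw [Walk.getVert_cons_succ, Walk.getVert_zero]
  refine Set.ncard_le_ncard_of_injOn F ?_ ?_ (Set.toFinite _)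
  · intro b hb
    have h1 := hf b hb
    rw [← hF b hb] at h1
    obtain ⟨p, _, hp, _⟩ := key b hb
    exact ⟨h1.1, p, hp⟩
  · intro b hb b' hb' h
    obtain ⟨p, hp1, hp2, hp3⟩ := key b hb
    obtain ⟨p', hp1', hp2', hp3'⟩ := key b' hb'
    have h1 := uniq V Γ _ hG a (F b) p (p'.copy rfl h.symm) hp1
      (by rw [Walk.isPath_copy]; exact hp1') (by rw [Walk.length_copy]; omega)
    rw [← hp3, ← hp3', h1, Walk.getVert_copy]

lemma stay (Γ : SimpleGraph V) (ρ : ℕ) (hG : Big Γ (4 * ρ + 2)) (z : ℕ → V) (n : ℕ)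
    (hz : IsP Γ z n) (x : V) (s t : ℕ) (ht : t ≤ n)
    (h : ∀ i, s ≤ i → i ≤ t → near Γ ρ (z i) x) : t ≤ s + 2 * ρ := by
  classical
  by_contra hlt
  have hP : IsP Γ (fun i => z (s + i)) (2 * ρ + 1) := by
    refine ⟨fun i hi => hz.1 (s + i) (by omega), fun i j hi hj h => ?_⟩
    have := hz.2 _ _ (by omega) (by omega) h
    omega
  obtain ⟨p, hp, hpl, -⟩ := H10.exists_path Γ _ _ hP
  have h1 : near Γ ρ (z (s + 0)) x := h _ (by omega) (by omega)
  have h2 := h (s + (2 * ρ + 1)) (by omega) (by omega)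
  obtain ⟨q, hq⟩ := H10.near_trans h1 (H10.near_symm h2)
  have h3 := q.length_bypass_le_length
  have h4 := uniq V Γ _ hG _ _ p q.bypass hp q.bypass_isPath (by omega)
  have h5 := congrArg Walk.length h4
  omega

lemma bad_le (Γ : SimpleGraph V) (X : Set V) (ρ : ℕ) (hG : Big Γ (4 * ρ + 2)) (z : ℕ → V) (n : ℕ)
    (hz : IsP Γ z n) (E : Finset ℕ)
    (hE : ∀ t, t ∈ E ↔ t < n ∧ Ent Γ ρ X (z t) (z (t + 1))) :
    {t : ℕ | t ≤ n ∧ ∃ x ∈ X, near Γ ρ (z t) x}.ncard ≤ (E.card + 1) * (2 * ρ + 1) := by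
  classical
  have hsub : {t : ℕ | t ≤ n ∧ ∃ x ∈ X, near Γ ρ (z t) x} ⊆
      ((insert 0 (E.image (· + 1))).biUnion (fun s => Finset.Icc s (s + 2 * ρ)) : Finset ℕ) := by
    rintro t ⟨ht, x, hx, hn⟩
    have hex : ∃ s, s ≤ t ∧ ∀ i, s ≤ i → i ≤ t → near Γ ρ (z i) x :=
      ⟨t, le_rfl, fun i h1 h2 => by rwa [le_antisymm h2 h1]⟩
    obtain ⟨h1, h2⟩ := Nat.find_spec hex
    have hmin := @Nat.find_min _ _ hex
    set s := Nat.find hex with hs
    have h3 := stay Γ ρ hG z n hz x s t ht h2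
    rw [Finset.mem_coe, Finset.mem_biUnion]
    refine ⟨s, ?_, Finset.mem_Icc.2 ⟨h1, h3⟩⟩
    rw [Finset.mem_insert]
    by_cases h0 : s = 0
    · exact Or.inl h0
    · refine Or.inr (Finset.mem_image.2 ⟨s - 1, ?_, by omega⟩)
      rw [hE]
      refine ⟨by omega, x, hx, ?_, ?_⟩
      · rw [Nat.sub_add_cancel (by omega)]
        exact h2 s le_rfl h1
      · intro h4
        apply hmin (m := s - 1) (by omega)
        refine ⟨by omega, fun i hi1 hi2 => ?_⟩
        rcases Nat.lt_or_ge i s with h5 | h5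
        · obtain rfl : i = s - 1 := by omega
          exact h4
        · exact h2 i h5 hi2
  have h1 := Set.ncard_le_ncard hsub (Finset.finite_toSet _)
  rw [Set.ncard_coe_finset] at h1
  refine h1.trans ?_
  have h2 := Finset.card_biUnion_le_card_mul (insert 0 (E.image (· + 1)))
    (fun s => Finset.Icc s (s + 2 * ρ)) (2 * ρ + 1) (fun s _ => by
      rw [Nat.card_Icc]; omega)
  refine h2.trans (Nat.mul_le_mul_right _ ?_)
  refine (Finset.card_insert_le _ _).trans ?_
  have := Finset.card_image_le (s := E) (f := (· + 1))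
  omega

/-- The paths with `n` edges from `y` which have entries at the times in `S`. -/
def PthE (R Γ : SimpleGraph V) (ρ : ℕ) (X : Set V) (S : Finset ℕ) (n : ℕ) (y : V) : Set (ℕ → V) :=
  {z | z ∈ H10.Pth R n y ∧ ∀ t, t < n → t ∈ S → Ent Γ ρ X (z t) (z (t + 1))}

lemma PthE.finite [Finite V] (R Γ : SimpleGraph V) (ρ : ℕ) (X : Set V) (S : Finset ℕ) (n : ℕ)
    (y : V) : (PthE R Γ ρ X S n y).Finite :=
  (H10.Pth.finite R n y).subset fun _ h => h.1

lemma bUnion_card {α β : Type} (S : Set α) (hS : S.Finite) (f : α → Set β) (n : ℕ)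
    (hf : ∀ a ∈ S, (f a).Finite) (h : ∀ a ∈ S, (f a).ncard ≤ n) :
    (⋃ a ∈ S, f a).ncard ≤ S.ncard * n := by
  classical
  induction S, hS using Set.Finite.induction_on with
  | empty => simp
  | @insert a S ha hS ih =>
    rw [Set.biUnion_insert, Set.ncard_insert_of_notMem ha hS]
    have h1 := Set.ncard_union_le (f a) (⋃ b ∈ S, f b)
    have h2 := ih (fun b hb => hf b (Set.mem_insert_of_mem _ hb))
      (fun b hb => h b (Set.mem_insert_of_mem _ hb))
    have h3 := h a (Set.mem_insert _ _)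
    calc _ ≤ _ := h1
      _ ≤ n + S.ncard * n := Nat.add_le_add h3 h2
      _ = _ := by ring

lemma card_pthE [Fintype V] (Γ R : SimpleGraph V) (X : Set V) (ρ d q : ℕ)
    (hG : Big Γ (4 * ρ + 2)) (hR : R ≤ Γ) (hd : ∀ v, (R.neighborSet v).ncard ≤ d)
    (hq : ∀ v, {x : V | x ∈ X ∧ near Γ (ρ + 1) v x}.ncard ≤ q) (S : Finset ℕ) (y : V) (n : ℕ) :
    (PthE R Γ ρ X S n y).ncard ≤ ∏ t ∈ Finset.range n, (if t ∈ S then q else d) := by
  classical
  induction n with
  | zero =>
    rw [Finset.range_zero, Finset.prod_empty, Set.ncard_le_one (PthE.finite _ _ _ _ _ _ _)]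
    intro z hz z' hz'
    funext t
    rw [hz.1.2.2 t (Nat.zero_le t), hz'.1.2.2 t (Nat.zero_le t), hz.1.2.1, hz'.1.2.1]
  | succ n ih =>
    rw [Finset.prod_range_succ]
    let ext : (ℕ → V) → V → (ℕ → V) := fun z b t => if t ≤ n then z t else b
    have hsub : PthE R Γ ρ X S (n + 1) y ⊆ ⋃ z ∈ PthE R Γ ρ X S n y,
        (ext z) '' {b | R.Adj (z n) b ∧ (n ∈ S → Ent Γ ρ X (z n) b)} := by
      rintro z ⟨⟨h1, h2, h3⟩, h4⟩
      have h5 := H10.IsP.trunc h1 (n := n) (by omega)
      rw [h2] at h5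
      rw [Set.mem_iUnion₂]
      refine ⟨fun t => z (min t n), ⟨h5, ?_⟩, z (n + 1), ⟨?_, ?_⟩, ?_⟩
      · intro t ht hS
        simp only
        rw [min_eq_left (by omega), min_eq_left (by omega)]
        exact h4 t (by omega) hS
      · simp only [min_self]
        exact h1.1 n (by omega)
      · simp only [min_self]
        exact h4 n (by omega)
      · funext t
        simp only [ext]
        split_ifs with h
        · rw [min_eq_left h]
        · exact (h3 t (by omega)).symm
    refine (Set.ncard_le_ncard hsub ?_).trans ?_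
    · exact (PthE.finite _ _ _ _ _ _ _).biUnion fun _ _ => (Set.toFinite _).image _
    · refine (bUnion_card _ (PthE.finite _ _ _ _ _ _ _) _ (if n ∈ S then q else d)
        (fun _ _ => (Set.toFinite _).image _) ?_).trans (Nat.mul_le_mul_right _ ih)
      intro z hz
      refine (Set.ncard_image_le (Set.toFinite _)).trans ?_
      split_ifs with h
      · refine (Set.ncard_le_ncard ?_ (Set.toFinite _)).trans (ent_card Γ R X ρ q hG hR hq (z n))
        rintro b ⟨h1, h2⟩
        exact ⟨h1, h2 h⟩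
      · refine (Set.ncard_le_ncard ?_ (Set.toFinite _)).trans (hd (z n))
        rintro b ⟨h1, _⟩
        exact h1

lemma prod_ite_pow (S : Finset ℕ) (n q d : ℕ) (hS : S ⊆ Finset.range n) :
    ∏ t ∈ Finset.range n, (if t ∈ S then q else d) = q ^ S.card * d ^ (n - S.card) := by
  rw [Finset.prod_ite, Finset.prod_const, Finset.prod_const, Finset.filter_mem_eq_inter,
    Finset.inter_eq_right.2 hS, Finset.filter_notMem_eq_sdiff, Finset.card_sdiff_of_subset hS,
    Finset.card_range]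

/-- PCNT -/
theorem pcnt : PcntStmt := by
  intro V _ Γ R X ρ d q hG hR hd hq n p e y hp
  classical
  let P : Finset (Finset ℕ × Finset ℕ) :=
    ((Finset.range (n - p)).powerset ×ˢ (Finset.range p).powerset).filter
      (fun S => S.1.card + S.2.card = e)
  have hPc : P.card ≤ 2 ^ n := by
    refine (Finset.card_filter_le _ _).trans ?_
    rw [Finset.card_product, Finset.card_powerset, Finset.card_powerset, Finset.card_range,
      Finset.card_range, ← pow_add, Nat.sub_add_cancel hp]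
  let Tg : Set ((ℕ → V) × (ℕ → V)) := ⋃ S ∈ (P : Set (Finset ℕ × Finset ℕ)),
    PthE R Γ ρ X S.1 (n - p) y ×ˢ PthE R Γ ρ X S.2 p y
  have hfin : ∀ S ∈ (P : Set (Finset ℕ × Finset ℕ)),
      (PthE R Γ ρ X S.1 (n - p) y ×ˢ PthE R Γ ρ X S.2 p y).Finite :=
    fun S _ => (PthE.finite _ _ _ _ _ _ _).prod (PthE.finite _ _ _ _ _ _ _)
  have hTfin : Tg.Finite := (Finset.finite_toSet P).biUnion hfin
  have hTc : Tg.ncard ≤ 2 ^ n * (q ^ e * d ^ (n - e)) := by
    refine (bUnion_card _ (Finset.finite_toSet P) _ (q ^ e * d ^ (n - e)) hfin ?_).trans ?_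
    · intro S hS
      rw [Finset.mem_coe, Finset.mem_filter, Finset.mem_product, Finset.mem_powerset,
        Finset.mem_powerset] at hS
      obtain ⟨⟨h1, h2⟩, h3⟩ := hS
      have c1 := Finset.card_le_card h1
      have c2 := Finset.card_le_card h2
      rw [Finset.card_range] at c1 c2
      rw [Set.ncard_prod]
      refine (Nat.mul_le_mul (card_pthE Γ R X ρ d q hG hR hd hq S.1 y (n - p))
        (card_pthE Γ R X ρ d q hG hR hd hq S.2 y p)).trans ?_
      rw [prod_ite_pow _ _ _ _ h1, prod_ite_pow _ _ _ _ h2]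
      refine le_of_eq ?_
      calc q ^ S.1.card * d ^ (n - p - S.1.card) * (q ^ S.2.card * d ^ (p - S.2.card))
          = q ^ (S.1.card + S.2.card) * d ^ ((n - p - S.1.card) + (p - S.2.card)) := by
            rw [pow_add, pow_add]; ring
        _ = q ^ e * d ^ (n - e) := by
            rw [h3, show (n - p - S.1.card) + (p - S.2.card) = n - e by omega]
    · rw [Set.ncard_coe_finset]
      exact Nat.mul_le_mul_right _ hPc
  refine le_trans ?_ hTc
  rw [← Nat.card_coe_set_eq]
  have : Finite ↑Tg := hTfin.to_subtype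
  have hr : ∀ z : {z : Fin (n + 1) → V // IsP R (cyc z) n ∧ cyc z p = y ∧
      (e + 1) * (2 * ρ + 1) < {t : ℕ | t ≤ n ∧ ∃ x ∈ X, near Γ ρ (cyc z t) x}.ncard},
      ((fun t => cyc z.1 (p + min t (n - p))), (fun t => cyc z.1 (p - min t p))) ∈ Tg := by
    rintro ⟨z, hz, hy, hbad⟩
    have hP1 : IsP R (fun t => cyc z (p + t)) (n - p) := by
      refine ⟨fun t ht => hz.1 (p + t) (by omega), fun s t hs ht h => ?_⟩
      have := hz.2 _ _ (by omega) (by omega) h
      omega
    have hP2 : IsP R (fun t => cyc z (p - t)) p := by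
      refine ⟨fun t ht => ?_, fun s t hs ht h => ?_⟩
      · have := (hz.1 (p - (t + 1)) (by omega)).symm
        rwa [show p - (t + 1) + 1 = p - t by omega] at this
      · have := hz.2 _ _ (by omega) (by omega) h
        omega
    let E1 : Finset ℕ := (Finset.range (n - p)).filter
      (fun t => Ent Γ ρ X (cyc z (p + t)) (cyc z (p + (t + 1))))
    let E2 : Finset ℕ := (Finset.range p).filter
      (fun t => Ent Γ ρ X (cyc z (p - t)) (cyc z (p - (t + 1))))
    have hb1 := bad_le Γ X ρ hG _ _ (H10.IsP.mono hR hP1) E1 (by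
      intro t; rw [Finset.mem_filter, Finset.mem_range])
    have hb2 := bad_le Γ X ρ hG _ _ (H10.IsP.mono hR hP2) E2 (by
      intro t; rw [Finset.mem_filter, Finset.mem_range])
    have hb3 : {t : ℕ | t ≤ n ∧ ∃ x ∈ X, near Γ ρ (cyc z t) x}.ncard ≤
        {t : ℕ | t ≤ n - p ∧ ∃ x ∈ X, near Γ ρ (cyc z (p + t)) x}.ncard +
        {t : ℕ | t ≤ p ∧ ∃ x ∈ X, near Γ ρ (cyc z (p - t)) x}.ncard := by
      have hs : {t : ℕ | t ≤ n ∧ ∃ x ∈ X, near Γ ρ (cyc z t) x} ⊆
          ((fun t => p + t) '' {t : ℕ | t ≤ n - p ∧ ∃ x ∈ X, near Γ ρ (cyc z (p + t)) x}) ∪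
          ((fun t => p - t) '' {t : ℕ | t ≤ p ∧ ∃ x ∈ X, near Γ ρ (cyc z (p - t)) x}) := by
        rintro t ⟨ht, hx⟩
        rcases le_total p t with h | h
        · refine Or.inl ⟨t - p, ⟨by omega, ?_⟩, by simp only; omega⟩
          rwa [show p + (t - p) = t by omega]
        · refine Or.inr ⟨p - t, ⟨by omega, ?_⟩, by simp only; omega⟩
          rwa [show p - (p - t) = t by omega]
      have f1 : {t : ℕ | t ≤ n - p ∧ ∃ x ∈ X, near Γ ρ (cyc z (p + t)) x}.Finite :=
        (Set.finite_Iic (n - p)).subset fun _ h => h.1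
      have f2 : {t : ℕ | t ≤ p ∧ ∃ x ∈ X, near Γ ρ (cyc z (p - t)) x}.Finite :=
        (Set.finite_Iic p).subset fun _ h => h.1
      refine (Set.ncard_le_ncard hs ((f1.image _).union (f2.image _))).trans ?_
      refine (Set.ncard_union_le _ _).trans ?_
      exact Nat.add_le_add (Set.ncard_image_le f1) (Set.ncard_image_le f2)
    have hlt : (e + 1) * (2 * ρ + 1) < (E1.card + E2.card + 2) * (2 * ρ + 1) := by
      calc _ < _ := hbad
        _ ≤ _ := hb3
        _ ≤ _ := Nat.add_le_add hb1 hb2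
        _ = _ := by ring
    have hge : e ≤ E1.card + E2.card := by
      have := Nat.lt_of_mul_lt_mul_right hlt
      omega
    obtain ⟨S1, hS1, hc1⟩ := Finset.exists_subset_card_eq (s := E1) (n := min e E1.card)
      (min_le_right _ _)
    obtain ⟨S2, hS2, hc2⟩ := Finset.exists_subset_card_eq (s := E2) (n := e - min e E1.card)
      (by omega)
    have hm1 : (fun t => cyc z (p + min t (n - p))) ∈ PthE R Γ ρ X S1 (n - p) y := by
      refine ⟨?_, ?_⟩
      · have := H10.IsP.trunc hP1 (le_refl (n - p))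
        simp only [add_zero, hy] at this
        exact this
      · intro t ht hS
        have := (Finset.mem_filter.1 (hS1 hS)).2
        simp only
        rwa [min_eq_left (by omega), min_eq_left (by omega)]
    have hm2 : (fun t => cyc z (p - min t p)) ∈ PthE R Γ ρ X S2 p y := by
      refine ⟨?_, ?_⟩
      · have := H10.IsP.trunc hP2 (le_refl p)
        simp only [Nat.sub_zero, hy] at this
        exact this
      · intro t ht hS
        have := (Finset.mem_filter.1 (hS2 hS)).2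
        simp only
        rwa [min_eq_left (by omega), min_eq_left (by omega)]
    simp only [Tg, Set.mem_iUnion₂]
    refine ⟨(S1, S2), ?_, ⟨hm1, hm2⟩⟩
    rw [Finset.mem_coe, Finset.mem_filter, Finset.mem_product, Finset.mem_powerset,
      Finset.mem_powerset]
    refine ⟨⟨hS1.trans (Finset.filter_subset _ _), hS2.trans (Finset.filter_subset _ _)⟩, ?_⟩
    simp only
    omega
  refine Nat.card_le_card_of_injective (fun z => (⟨_, hr z⟩ : ↑Tg)) ?_
  rintro ⟨z, hz, hy, _⟩ ⟨z', hz', hy', _⟩ h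
  simp only [Subtype.mk.injEq, Prod.mk.injEq] at h
  obtain ⟨h1, h2⟩ := h
  apply Subtype.ext
  simp only
  apply H10.cyc_ext
  intro t ht
  rcases le_total p t with hpt | hpt
  · have := congrFun h1 (t - p)
    rwa [min_eq_left (by omega), show p + (t - p) = t by omega] at this
  · have := congrFun h2 (p - t)
    rwa [min_eq_left (by omega), show p - (p - t) = t by omega] at this

/-- PCNTD -/
theorem pcntD : PcntDStmt := by
  intro V _ Γ R X ρ d q hG hR hd hq n p e y v hp
  classical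
  let P : Finset (Finset ℕ × Finset ℕ) :=
    ((Finset.range (n - (p + 1))).powerset ×ˢ (Finset.range p).powerset).filter
      (fun S => S.1.card + S.2.card = e)
  have hPc : P.card ≤ 2 ^ n := by
    refine (Finset.card_filter_le _ _).trans ?_
    rw [Finset.card_product, Finset.card_powerset, Finset.card_powerset, Finset.card_range,
      Finset.card_range, ← pow_add]
    exact Nat.pow_le_pow_right (by norm_num) (by omega)
  let Tg : Set ((ℕ → V) × (ℕ → V)) := ⋃ S ∈ (P : Set (Finset ℕ × Finset ℕ)),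
    PthE R Γ ρ X S.1 (n - (p + 1)) v ×ˢ PthE R Γ ρ X S.2 p y
  have hfin : ∀ S ∈ (P : Set (Finset ℕ × Finset ℕ)),
      (PthE R Γ ρ X S.1 (n - (p + 1)) v ×ˢ PthE R Γ ρ X S.2 p y).Finite :=
    fun S _ => (PthE.finite _ _ _ _ _ _ _).prod (PthE.finite _ _ _ _ _ _ _)
  have hTfin : Tg.Finite := (Finset.finite_toSet P).biUnion hfin
  have hTc : Tg.ncard ≤ 2 ^ n * (q ^ e * d ^ (n - 1 - e)) := by
    refine (bUnion_card _ (Finset.finite_toSet P) _ (q ^ e * d ^ (n - 1 - e)) hfin ?_).trans ?_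
    · intro S hS
      rw [Finset.mem_coe, Finset.mem_filter, Finset.mem_product, Finset.mem_powerset,
        Finset.mem_powerset] at hS
      obtain ⟨⟨h1, h2⟩, h3⟩ := hS
      have c1 := Finset.card_le_card h1
      have c2 := Finset.card_le_card h2
      rw [Finset.card_range] at c1 c2
      rw [Set.ncard_prod]
      refine (Nat.mul_le_mul (card_pthE Γ R X ρ d q hG hR hd hq S.1 v (n - (p + 1)))
        (card_pthE Γ R X ρ d q hG hR hd hq S.2 y p)).trans ?_
      rw [prod_ite_pow _ _ _ _ h1, prod_ite_pow _ _ _ _ h2]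
      refine le_of_eq ?_
      calc q ^ S.1.card * d ^ (n - (p + 1) - S.1.card) * (q ^ S.2.card * d ^ (p - S.2.card))
          = q ^ (S.1.card + S.2.card) * d ^ ((n - (p + 1) - S.1.card) + (p - S.2.card)) := by
            rw [pow_add, pow_add]; ring
        _ = q ^ e * d ^ (n - 1 - e) := by
            rw [h3, show (n - (p + 1) - S.1.card) + (p - S.2.card) = n - 1 - e by omega]
    · rw [Set.ncard_coe_finset]
      exact Nat.mul_le_mul_right _ hPc
  refine le_trans ?_ hTc
  rw [← Nat.card_coe_set_eq]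
  have : Finite ↑Tg := hTfin.to_subtype
  have hr : ∀ z : {z : Fin (n + 1) → V // IsP R (cyc z) n ∧ (cyc z p = y ∧ cyc z (p + 1) = v) ∧
      (e + 1) * (2 * ρ + 1) < {t : ℕ | t ≤ n ∧ ∃ x ∈ X, near Γ ρ (cyc z t) x}.ncard},
      ((fun t => cyc z.1 (p + 1 + min t (n - (p + 1)))), (fun t => cyc z.1 (p - min t p))) ∈ Tg := by
    rintro ⟨z, hz, ⟨hy, hv⟩, hbad⟩
    have hP1 : IsP R (fun t => cyc z (p + 1 + t)) (n - (p + 1)) := by
      refine ⟨fun t ht => hz.1 (p + 1 + t) (by omega), fun s t hs ht h => ?_⟩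
      have := hz.2 _ _ (by omega) (by omega) h
      omega
    have hP2 : IsP R (fun t => cyc z (p - t)) p := by
      refine ⟨fun t ht => ?_, fun s t hs ht h => ?_⟩
      · have := (hz.1 (p - (t + 1)) (by omega)).symm
        rwa [show p - (t + 1) + 1 = p - t by omega] at this
      · have := hz.2 _ _ (by omega) (by omega) h
        omega
    let E1 : Finset ℕ := (Finset.range (n - (p + 1))).filter
      (fun t => Ent Γ ρ X (cyc z (p + 1 + t)) (cyc z (p + 1 + (t + 1))))
    let E2 : Finset ℕ := (Finset.range p).filter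
      (fun t => Ent Γ ρ X (cyc z (p - t)) (cyc z (p - (t + 1))))
    have hb1 := bad_le Γ X ρ hG _ _ (H10.IsP.mono hR hP1) E1 (by
      intro t; rw [Finset.mem_filter, Finset.mem_range])
    have hb2 := bad_le Γ X ρ hG _ _ (H10.IsP.mono hR hP2) E2 (by
      intro t; rw [Finset.mem_filter, Finset.mem_range])
    have hb3 : {t : ℕ | t ≤ n ∧ ∃ x ∈ X, near Γ ρ (cyc z t) x}.ncard ≤
        {t : ℕ | t ≤ n - (p + 1) ∧ ∃ x ∈ X, near Γ ρ (cyc z (p + 1 + t)) x}.ncard +
        {t : ℕ | t ≤ p ∧ ∃ x ∈ X, near Γ ρ (cyc z (p - t)) x}.ncard := by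
      have hs : {t : ℕ | t ≤ n ∧ ∃ x ∈ X, near Γ ρ (cyc z t) x} ⊆
          ((fun t => p + 1 + t) '' {t : ℕ | t ≤ n - (p + 1) ∧
            ∃ x ∈ X, near Γ ρ (cyc z (p + 1 + t)) x}) ∪
          ((fun t => p - t) '' {t : ℕ | t ≤ p ∧ ∃ x ∈ X, near Γ ρ (cyc z (p - t)) x}) := by
        rintro t ⟨ht, hx⟩
        rcases Nat.lt_or_ge p t with h | h
        · refine Or.inl ⟨t - (p + 1), ⟨by omega, ?_⟩, by simp only; omega⟩
          rwa [show p + 1 + (t - (p + 1)) = t by omega]
        · refine Or.inr ⟨p - t, ⟨by omega, ?_⟩, by simp only; omega⟩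
          rwa [show p - (p - t) = t by omega]
      have f1 : {t : ℕ | t ≤ n - (p + 1) ∧ ∃ x ∈ X, near Γ ρ (cyc z (p + 1 + t)) x}.Finite :=
        (Set.finite_Iic (n - (p + 1))).subset fun _ h => h.1
      have f2 : {t : ℕ | t ≤ p ∧ ∃ x ∈ X, near Γ ρ (cyc z (p - t)) x}.Finite :=
        (Set.finite_Iic p).subset fun _ h => h.1
      refine (Set.ncard_le_ncard hs ((f1.image _).union (f2.image _))).trans ?_
      refine (Set.ncard_union_le _ _).trans ?_
      exact Nat.add_le_add (Set.ncard_image_le f1) (Set.ncard_image_le f2)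
    have hlt : (e + 1) * (2 * ρ + 1) < (E1.card + E2.card + 2) * (2 * ρ + 1) := by
      calc _ < _ := hbad
        _ ≤ _ := hb3
        _ ≤ _ := Nat.add_le_add hb1 hb2
        _ = _ := by ring
    have hge : e ≤ E1.card + E2.card := by
      have := Nat.lt_of_mul_lt_mul_right hlt
      omega
    obtain ⟨S1, hS1, hc1⟩ := Finset.exists_subset_card_eq (s := E1) (n := min e E1.card)
      (min_le_right _ _)
    obtain ⟨S2, hS2, hc2⟩ := Finset.exists_subset_card_eq (s := E2) (n := e - min e E1.card)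
      (by omega)
    have hm1 : (fun t => cyc z (p + 1 + min t (n - (p + 1)))) ∈
        PthE R Γ ρ X S1 (n - (p + 1)) v := by
      refine ⟨?_, ?_⟩
      · have := H10.IsP.trunc hP1 (le_refl (n - (p + 1)))
        simp only [add_zero, hv] at this
        exact this
      · intro t ht hS
        have := (Finset.mem_filter.1 (hS1 hS)).2
        simp only
        rwa [min_eq_left (by omega), min_eq_left (by omega)]
    have hm2 : (fun t => cyc z (p - min t p)) ∈ PthE R Γ ρ X S2 p y := by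
      refine ⟨?_, ?_⟩
      · have := H10.IsP.trunc hP2 (le_refl p)
        simp only [Nat.sub_zero, hy] at this
        exact this
      · intro t ht hS
        have := (Finset.mem_filter.1 (hS2 hS)).2
        simp only
        rwa [min_eq_left (by omega), min_eq_left (by omega)]
    simp only [Tg, Set.mem_iUnion₂]
    refine ⟨(S1, S2), ?_, ⟨hm1, hm2⟩⟩
    rw [Finset.mem_coe, Finset.mem_filter, Finset.mem_product, Finset.mem_powerset,
      Finset.mem_powerset]
    refine ⟨⟨hS1.trans (Finset.filter_subset _ _), hS2.trans (Finset.filter_subset _ _)⟩, ?_⟩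
    simp only
    omega
  refine Nat.card_le_card_of_injective (fun z => (⟨_, hr z⟩ : ↑Tg)) ?_
  rintro ⟨z, hz, ⟨hy, hv⟩, _⟩ ⟨z', hz', ⟨hy', hv'⟩, _⟩ h
  simp only [Subtype.mk.injEq, Prod.mk.injEq] at h
  obtain ⟨h1, h2⟩ := h
  apply Subtype.ext
  simp only
  apply H10.cyc_ext
  intro t ht
  rcases Nat.lt_or_ge p t with hpt | hpt
  · have := congrFun h1 (t - (p + 1))
    rwa [min_eq_left (by omega), show p + 1 + (t - (p + 1)) = t by omega] at this
  · have := congrFun h2 (p - t)
    rwa [min_eq_left (by omega), show p - (p - t) = t by omega] at this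

/-- BLOCK -/
theorem block : BlockStmt := by
  intro V H Bd m b hm
  classical
  have hpath : ∀ z n, m ≤ n → IsP H z n →
      {t : ℕ | t ≤ n ∧ z t ∈ Bd}.ncard ≤ b * (n / (m + 1) + 1) := by
    intro z n hmn hz
    have hsub : {t : ℕ | t ≤ n ∧ z t ∈ Bd} ⊆ ⋃ j ∈ Set.Iic (n / (m + 1)),
        (fun i => min (j * (m + 1)) (n - m) + i) ''
          {i : ℕ | i ≤ m ∧ z (min (j * (m + 1)) (n - m) + i) ∈ Bd} := by
      rintro t ⟨ht, hb⟩
      rw [Set.mem_iUnion₂]
      have h1 : t / (m + 1) * (m + 1) ≤ t := Nat.div_mul_le_self _ _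
      have h2 : t < t / (m + 1) * (m + 1) + (m + 1) := Nat.lt_div_mul_add (by omega)
      refine ⟨t / (m + 1), Nat.div_le_div_right ht, t - min (t / (m + 1) * (m + 1)) (n - m),
        ⟨?_, ?_⟩, ?_⟩
      · rcases le_total (t / (m + 1) * (m + 1)) (n - m) with h | h
        · rw [min_eq_left h]; omega
        · rw [min_eq_right h]; omega
      · rwa [show min (t / (m + 1) * (m + 1)) (n - m) +
          (t - min (t / (m + 1) * (m + 1)) (n - m)) = t by omega]
      · simp only
        omega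
    have hfin : ∀ j ∈ Set.Iic (n / (m + 1)), ((fun i => min (j * (m + 1)) (n - m) + i) ''
          {i : ℕ | i ≤ m ∧ z (min (j * (m + 1)) (n - m) + i) ∈ Bd}).Finite :=
      fun j _ => ((Set.finite_Iic m).subset fun _ h => h.1).image _
    refine (Set.ncard_le_ncard hsub ((Set.finite_Iic _).biUnion hfin)).trans ?_
    refine (bUnion_card _ (Set.finite_Iic _) _ b hfin ?_).trans ?_
    · intro j _
      refine (Set.ncard_image_le ((Set.finite_Iic m).subset fun _ h => h.1)).trans ?_
      refine hm (fun i => z (min (j * (m + 1)) (n - m) + i)) ⟨fun i hi => ?_,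
        fun i i' hi hi' h => ?_⟩
      · exact hz.1 _ (by omega)
      · have := hz.2 _ _ (by omega) (by omega) h
        omega
    · rw [show Set.Iic (n / (m + 1)) = ((Finset.range (n / (m + 1) + 1) : Finset ℕ) : Set ℕ) by
        ext i; simp, Set.ncard_coe_finset, Finset.card_range]
      exact (Nat.mul_comm _ _).le
  refine ⟨hpath, fun z n hmn hz => ?_⟩
  have h1 : IsP H z (n - 1) := by
    refine ⟨fun t ht => hz.2.1 t (by omega), fun s t hs ht h => ?_⟩
    exact hz.2.2.2 _ _ (by omega) (by omega) h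
  have h2 := hpath z (n - 1) (by omega) h1
  have h3 : {t : ℕ | t < n ∧ z t ∈ Bd} = {t : ℕ | t ≤ n - 1 ∧ z t ∈ Bd} := by
    ext t
    constructor
    · rintro ⟨h, h'⟩
      exact ⟨by omega, h'⟩
    · rintro ⟨h, h'⟩
      exact ⟨by omega, h'⟩
  rw [h3]
  refine h2.trans (Nat.mul_le_mul_left _ ?_)
  have := Nat.div_le_div_right (c := m + 1) (show n - 1 ≤ n by omega)
  omega

end H53

end Pool.Agent.LAG
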