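import Pool.Agent.Helper53_LLG.Main
import Pool.Agent.Helper53_LLG.Cut
import Pool.Agent.Helper53_LLG.Path

/-!
# LLG: deterministic part of a round (inner machine and cut of all hosts)
-/

set_option autoImplicit false

namespace Pool.Agent.LAG

open SimpleGraph

/-- SPW: a path with `W` edges has at most `2 ρ + 1` vertices near a separated set. -/
def SpwStmt : Prop := ∀ (V : Type) (Γ : SimpleGraph V) (ρ W : ℕ) (X : Set V),
    Big Γ (2 * ρ + W) → (∀ x ∈ X, ∀ y ∈ X, x ≠ y → ¬ near Γ (2 * ρ + W) x y) →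
    ∀ z : ℕ → V, IsP Γ z W → {t : ℕ | t ≤ W ∧ ∃ x ∈ X, near Γ ρ (z t) x}.ncard ≤ 2 * ρ + 1

/-- RINNER: the hosts `E i` (maximum degree four, girth more than `2 h`, few vertices of each path
near `X`) are split into linear forests after removal of the edges of `K` (each has an end in the
`2000`-separated set `Kc`) and of `C` (pairwise at distance more than `2000`), all far from the
sets `X` and `Z`. -/
def RInnerStmt : Prop := ∀ (V : Type) [Fintype V] (Γ : SimpleGraph V) (n D a h ℓ T L m Nc : ℕ)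
    (E : Fin n → SimpleGraph V) (X Z : Set V), Big Γ 2000 →
    (∀ v, (Γ.neighborSet v).ncard ≤ D) → (∀ i, E i ≤ Γ) → (∀ i j, i ≠ j → Disjoint (E i) (E j)) →
    (∀ i v, ((E i).neighborSet v).ncard ≤ 4) → (∀ i, Big (E i) (2 * h)) →
    (∀ i z, IsP (E i) z m → 8 * {t : ℕ | t ≤ m ∧ ∃ x ∈ X, near Γ 90 (z t) x}.ncard ≤ m + 1) →
    (∀ x ∈ Z, ∀ y ∈ Z, x ≠ y → ¬ near Γ 2000 x y) →
    Num' (n * (D + 1) ^ 2000) a h ℓ T L → 4 * a ≤ T → 8 * m + 20000 ≤ T →
    128 * (n * (D + 1) ^ 2000) ≤ Nc → 1 ≤ Nc → 8 * Nc + 8 * m + 20000 ≤ ℓ →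
    ∃ (F : Fin n → Bool → SimpleGraph V) (Kc : Set V) (K C : SimpleGraph V),
      (∀ i b, F i b ≤ E i ∧ (F i b).IsAcyclic ∧ ∀ v, ((F i b).neighborSet v).ncard ≤ 2) ∧
      (∀ i, Disjoint (F i false) (F i true)) ∧
      (∀ i b, Disjoint (F i b) (K ⊔ C)) ∧
      (⨆ i, (F i false ⊔ F i true)) ⊔ (K ⊔ C) = ⨆ i, E i ∧
      (∀ x ∈ Kc, ∀ y ∈ Kc, x ≠ y → ¬ near Γ 2000 x y) ∧
      (∀ x ∈ Kc, (∀ y ∈ X, ¬ near Γ 90 x y) ∧ ∀ y ∈ Z, ¬ near Γ 92 x y) ∧
      (∀ u v, K.Adj u v → u ∈ Kc ∨ v ∈ Kc) ∧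
      (∀ u v v', u ∈ Kc → K.Adj u v → K.Adj u v' → v = v') ∧
      (∀ u v, C.Adj u v → (∀ y ∈ X, ¬ near Γ 90 u y) ∧ ∀ y, y ∈ Z ∨ y ∈ Kc → ¬ near Γ 92 u y) ∧
      (∀ u v u' v', C.Adj u v → C.Adj u' v' → near Γ 2000 u u' → s(u, v) = s(u', v'))

namespace H53

open H10

/-- SPW -/
theorem spw : SpwStmt := by
  intro V Γ ρ W X hG hX z hz
  classical
  by_cases hne : ∃ s, s ≤ W ∧ ∃ x ∈ X, near Γ ρ (z s) x
  · obtain ⟨hs1, x, hxX, hx⟩ := Nat.find_spec hne
    have hmin := @Nat.find_min _ _ hne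
    set s := Nat.find hne with hs
    have hsub : {t : ℕ | t ≤ W ∧ ∃ x ∈ X, near Γ ρ (z t) x} ⊆
        (Finset.Icc s (s + 2 * ρ) : Finset ℕ) := by
      rintro t ⟨ht, y, hyX, hy⟩
      have hst : s ≤ t := by
        by_contra hlt
        exact hmin (m := t) (by omega) ⟨ht, y, hyX, hy⟩
      rw [Finset.mem_coe, Finset.mem_Icc]
      refine ⟨hst, ?_⟩
      by_contra hlt
      have hP : IsP Γ (fun i => z (s + i)) (t - s) := by
        refine ⟨fun i hi => hz.1 (s + i) (by omega), fun i j hi hj h => ?_⟩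
        have := hz.2 _ _ (by omega) (by omega) h
        omega
      obtain ⟨p, hp, hpl, -⟩ := exists_path Γ _ _ hP
      have e1 : s + 0 = s := by omega
      have e2 : s + (t - s) = t := by omega
      by_cases hxy : x = y
      · subst hxy
        have h1 : near Γ (ρ + ρ) (z (s + 0)) (z (s + (t - s))) := by
          rw [e1, e2]
          exact near_trans hx (near_symm hy)
        obtain ⟨q, hq⟩ := h1
        have h3 := q.length_bypass_le_length
        have h4 := uniq V Γ _ hG _ _ p q.bypass hp q.bypass_isPath (by omega)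
        have h5 := congrArg Walk.length h4
        omega
      · refine hX x hxX y hyX hxy ?_
        have h1 : near Γ (t - s) (z s) (z t) := by
          have : near Γ (t - s) (z (s + 0)) (z (s + (t - s))) := ⟨p, hpl.le⟩
          rwa [e1, e2] at this
        exact near_mono (by omega) (near_trans (near_trans (near_symm hx) h1) hy)
    have h1 := Set.ncard_le_ncard hsub (Finset.finite_toSet _)
    rw [Set.ncard_coe_finset, Nat.card_Icc] at h1
    omega
  · have : {t : ℕ | t ≤ W ∧ ∃ x ∈ X, near Γ ρ (z t) x} = ∅ := by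
      ext t
      simp only [Set.mem_ofPred_eq, Set.mem_empty_iff_false, iff_false]
      exact fun h => hne ⟨t, h⟩
    rw [this]
    simp

/-- The two bounds for paths and cycles of a host, for a separated set. -/
lemma sep_block {V : Type} (Γ H : SimpleGraph V) (X : Set V) (hG : Big Γ 2000) (hH : H ≤ Γ)
    (hX : ∀ x ∈ X, ∀ y ∈ X, x ≠ y → ¬ near Γ 2000 x y) :
    (∀ z n, 1816 ≤ n → IsP H z n →
      9 * {t : ℕ | t ≤ n ∧ ∃ x ∈ X, near Γ 92 (z t) x}.ncard ≤ n + 1665) ∧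
    (∀ z n, 1816 < n → IsC H z n →
      9 * {t : ℕ | t < n ∧ ∃ x ∈ X, near Γ 92 (z t) x}.ncard ≤ n + 1665) := by
  obtain ⟨h1, h2⟩ := block V H {v | ∃ x ∈ X, near Γ 92 v x} 1816 185 (fun z hz =>
    spw V Γ 92 1816 X hG hX z (IsP.mono hH hz))
  have h3 : ∀ n : ℕ, 9 * (185 * (n / (1816 + 1) + 1)) ≤ n + 1665 := by
    intro n
    have := Nat.div_mul_le_self n 1817
    norm_num at this ⊢
    omega
  exact ⟨fun z n hn hz => (Nat.mul_le_mul_left _ (h1 z n hn hz)).trans (h3 n),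
    fun z n hn hz => (Nat.mul_le_mul_left _ (h2 z n hn hz)).trans (h3 n)⟩

/-- The two bounds for paths and cycles of a host, for a set with path events. -/
lemma ev_block {V : Type} (H : SimpleGraph V) (Bd : Set V) (m : ℕ)
    (hm : ∀ z, IsP H z m → 8 * {t : ℕ | t ≤ m ∧ z t ∈ Bd}.ncard ≤ m + 1) :
    (∀ z n, m ≤ n → IsP H z n → 8 * {t : ℕ | t ≤ n ∧ z t ∈ Bd}.ncard ≤ n + m + 1) ∧
    (∀ z n, m < n → IsC H z n → 8 * {t : ℕ | t < n ∧ z t ∈ Bd}.ncard ≤ n + m + 1) := by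
  obtain ⟨h1, h2⟩ := block V H Bd m ((m + 1) / 8) (fun z hz => by
    have := hm z hz
    omega)
  have h3 : ∀ n : ℕ, 8 * ((m + 1) / 8 * (n / (m + 1) + 1)) ≤ n + m + 1 := by
    intro n
    have e1 := Nat.div_mul_le_self n (m + 1)
    have e2 : 8 * ((m + 1) / 8) ≤ m + 1 := Nat.mul_div_le _ _
    calc 8 * ((m + 1) / 8 * (n / (m + 1) + 1)) = 8 * ((m + 1) / 8) * (n / (m + 1) + 1) := by ring
      _ ≤ (m + 1) * (n / (m + 1) + 1) := Nat.mul_le_mul_right _ e2
      _ = n / (m + 1) * (m + 1) + (m + 1) := by ring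
      _ ≤ _ := by omega
  exact ⟨fun z n hn hz => (Nat.mul_le_mul_left _ (h1 z n hn hz)).trans (h3 n),
    fun z n hn hz => (Nat.mul_le_mul_left _ (h2 z n hn hz)).trans (h3 n)⟩

lemma ball_ncard {V : Type} [Fintype V] (Γ : SimpleGraph V) (D : ℕ)
    (hD : ∀ v, (Γ.neighborSet v).ncard ≤ D) (r : ℕ) (v : V) :
    {x : V | near Γ r x v}.ncard ≤ (D + 1) ^ r := by
  have := ball V Γ D hD r v
  rwa [← Nat.card_coe_set_eq]

/-- RINNER -/
theorem rinner (hMain : Main'Stmt) (hCut : CutStmt) : RInnerStmt := by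
  intro V _ Γ n D a h ℓ T L m Nc E X Z hG hD hEG hEd hE4 hEb hev hZ hnum haT hT hN1 hN0 hl
  classical
  have hball := ball_ncard Γ D hD 2000
  have hball' := ball V Γ D hD 2000
  generalize (D + 1) ^ 2000 = c at hnum hN1 hball hball'
  -- the killers
  let al : Set V := {v : V | ¬ (∃ x ∈ X, near Γ 90 v x) ∧ ¬ ∃ x ∈ Z, near Γ 92 v x}
  have hal : ∀ (i : Fin n) z, IsP (E i) z T → a ≤ {t : ℕ | 0 < t ∧ t < T ∧ z t ∈ al}.ncard := by
    intro i z hz
    have b1 := (ev_block (E i) {v | ∃ x ∈ X, near Γ 90 v x} m (hev i)).1 z T (by omega) hz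
    have b2 := (sep_block Γ (E i) Z hG (hEG i) hZ).1 z T (by omega) hz
    have hsub : (Finset.Ioo 0 T : Set ℕ) ⊆ {t : ℕ | 0 < t ∧ t < T ∧ z t ∈ al} ∪
        ({t : ℕ | t ≤ T ∧ z t ∈ {v | ∃ x ∈ X, near Γ 90 v x}} ∪
          {t : ℕ | t ≤ T ∧ ∃ x ∈ Z, near Γ 92 (z t) x}) := by
      intro t ht
      rw [Finset.coe_Ioo, Set.mem_Ioo] at ht
      by_cases h1 : ∃ x ∈ X, near Γ 90 (z t) x
      · exact Or.inr (Or.inl ⟨ht.2.le, h1⟩)
      by_cases h2 : ∃ x ∈ Z, near Γ 92 (z t) x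
      · exact Or.inr (Or.inr ⟨ht.2.le, h2⟩)
      · exact Or.inl ⟨ht.1, ht.2, h1, h2⟩
    have f1 : {t : ℕ | 0 < t ∧ t < T ∧ z t ∈ al}.Finite :=
      (Set.finite_Iio T).subset fun t ht => ht.2.1
    have f2 : {t : ℕ | t ≤ T ∧ z t ∈ {v | ∃ x ∈ X, near Γ 90 v x}}.Finite :=
      (Set.finite_Iic T).subset fun t ht => ht.1
    have f3 : {t : ℕ | t ≤ T ∧ ∃ x ∈ Z, near Γ 92 (z t) x}.Finite :=
      (Set.finite_Iic T).subset fun t ht => ht.1
    have h1 := Set.ncard_le_ncard hsub (f1.union (f2.union f3))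
    have h2 := Set.ncard_union_le {t : ℕ | 0 < t ∧ t < T ∧ z t ∈ al}
      ({t : ℕ | t ≤ T ∧ z t ∈ {v | ∃ x ∈ X, near Γ 90 v x}} ∪
          {t : ℕ | t ≤ T ∧ ∃ x ∈ Z, near Γ 92 (z t) x})
    have h3 := Set.ncard_union_le {t : ℕ | t ≤ T ∧ z t ∈ {v | ∃ x ∈ X, near Γ 90 v x}}
      {t : ℕ | t ≤ T ∧ ∃ x ∈ Z, near Γ 92 (z t) x}
    rw [Set.ncard_coe_finset, Nat.card_Ioo] at h1
    omega
  obtain ⟨F, kl, hFE, hFd, hF2, hFb, hkill, hkl1, hkl2⟩ := hMain V _ _ h ℓ T L hnum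
    (fun x y => near Γ 2000 x y) (fun x y hxy => near_symm hxy)
    (fun x => ⟨Walk.nil, by simp⟩) (Fin n) (fun v => by
      rw [Fintype.card_fin]
      refine Nat.mul_le_mul_left _ ?_
      exact hball' v) E hEb hE4
    (fun _ => al) hal
  let Kc : Set V := {u | ∃ i v, kl i u v}
  have hKc : ∀ x ∈ Kc, ∀ y ∈ Kc, x ≠ y → ¬ near Γ 2000 x y := by
    rintro x ⟨i, v, hx⟩ y ⟨i', v', hy⟩ hxy hn
    exact hxy (hkl2 i x v i' y v' hx hy hn).2.1
  have hKcX : ∀ x ∈ Kc, (∀ y ∈ X, ¬ near Γ 90 x y) ∧ ∀ y ∈ Z, ¬ near Γ 92 x y := by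
    rintro x ⟨i, v, hx⟩
    exact ⟨fun y hy hn => (hkl1 i x v hx).1.1 ⟨y, hy, hn⟩,
      fun y hy hn => (hkl1 i x v hx).1.2 ⟨y, hy, hn⟩⟩
  let K : SimpleGraph V := ⨆ i, E i \ (F i false ⊔ F i true)
  have hKadj : ∀ u v, K.Adj u v ↔ ∃ i, (E i \ (F i false ⊔ F i true)).Adj u v := by
    intro u v; simp only [K, SimpleGraph.iSup_adj]
  -- the cut
  let e : Fin (2 * n) ≃ Fin n × Bool := (Fintype.equivFinOfCardEq (by
    rw [Fintype.card_prod, Fintype.card_fin, Fintype.card_bool]; ring)).symm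
  let A : Fin (2 * n) → SimpleGraph V := fun j => F (e j).1 (e j).2
  have hAd : ∀ i j, i ≠ j → Disjoint (A i) (A j) := by
    intro i j hij
    by_cases h1 : (e i).1 = (e j).1
    · have h2 : (e i).2 ≠ (e j).2 := fun h2 => hij (e.injective (Prod.ext h1 h2))
      simp only [A]
      rw [h1]
      rcases Bool.eq_false_or_eq_true (e i).2 with h3 | h3 <;>
        rcases Bool.eq_false_or_eq_true (e j).2 with h4 | h4
      · exact absurd (h3.trans h4.symm) h2
      · rw [h3, h4]; exact (hFd _).symm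
      · rw [h3, h4]; exact hFd _
      · exact absurd (h3.trans h4.symm) h2
    · exact (hEd _ _ h1).mono (hFE _ _) (hFE _ _)
  obtain ⟨S, hSA, hSac, hSF, hSS⟩ := hCut V (2 * n) Nc c A
    {v : V | ¬ ((∃ x ∈ X, near Γ 90 v x) ∨ (∃ x ∈ Z, near Γ 92 v x) ∨ ∃ x ∈ Kc, near Γ 92 v x)}
    (fun x y => near Γ 2000 x y)
    (fun x y hxy => near_symm hxy) hAd (fun j v => hF2 _ _ v) (by
      intro j z M hz
      have hM : ℓ < M := cycLen V (A j) ℓ (hFb _ _) z M hz
      have hAE : A j ≤ E (e j).1 := hFE _ _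
      have hzE := IsC.mono hAE hz
      have b1 := (ev_block (E (e j).1) {v | ∃ x ∈ X, near Γ 90 v x} m
        (hev _)).2 z M (by omega) hzE
      have b2 := (sep_block Γ (E (e j).1) Z hG (hEG _) hZ).2 z M (by omega) hzE
      have b3 := (sep_block Γ (E (e j).1) Kc hG (hEG _) hKc).2 z M (by omega) hzE
      set Fr : Set V := {v : V | ¬ ((∃ x ∈ X, near Γ 90 v x) ∨ (∃ x ∈ Z, near Γ 92 v x) ∨
        ∃ x ∈ Kc, near Γ 92 v x)} with hFr
      have hbad : {t : ℕ | t < M ∧ z t ∉ Fr}.ncard ≤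
          {t : ℕ | t < M ∧ z t ∈ {v | ∃ x ∈ X, near Γ 90 v x}}.ncard +
          ({t : ℕ | t < M ∧ ∃ x ∈ Z, near Γ 92 (z t) x}.ncard +
          {t : ℕ | t < M ∧ ∃ x ∈ Kc, near Γ 92 (z t) x}.ncard) := by
        have hsub : {t : ℕ | t < M ∧ z t ∉ Fr} ⊆
            {t : ℕ | t < M ∧ z t ∈ {v | ∃ x ∈ X, near Γ 90 v x}} ∪
            ({t : ℕ | t < M ∧ ∃ x ∈ Z, near Γ 92 (z t) x} ∪
            {t : ℕ | t < M ∧ ∃ x ∈ Kc, near Γ 92 (z t) x}) := by
          rintro t ⟨ht, h1⟩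
          rw [hFr, Set.mem_ofPred_eq, not_not] at h1
          rcases h1 with h1 | h1 | h1
          · exact Or.inl ⟨ht, h1⟩
          · exact Or.inr (Or.inl ⟨ht, h1⟩)
          · exact Or.inr (Or.inr ⟨ht, h1⟩)
        refine (Set.ncard_le_ncard hsub ?_).trans ((Set.ncard_union_le _ _).trans
          (Nat.add_le_add_left (Set.ncard_union_le _ _) _))
        refine ((Set.finite_Iio M).subset fun t ht => ht.1).union
          (((Set.finite_Iio M).subset fun t ht => ht.1).union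
            ((Set.finite_Iio M).subset fun t ht => ht.1))
      have hbad2 : {t : ℕ | t < M ∧ z (t + 1) ∉ Fr}.ncard ≤ {t : ℕ | t < M ∧ z t ∉ Fr}.ncard := by
        refine Set.ncard_le_ncard_of_injOn (fun t => if t + 1 = M then 0 else t + 1) ?_ ?_
          ((Set.finite_Iio M).subset fun t ht => ht.1)
        · rintro t ⟨ht, h1⟩
          by_cases h2 : t + 1 = M
          · rw [if_pos h2]
            refine ⟨by omega, ?_⟩
            rwa [h2, hz.2.2.1] at h1
          · rw [if_neg h2]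
            exact ⟨by omega, h1⟩
        · rintro s ⟨hs, _⟩ t ⟨ht, _⟩ hst
          beta_reduce at hst
          by_cases h2 : s + 1 = M
          · by_cases h3 : t + 1 = M
            · omega
            · rw [if_pos h2, if_neg h3] at hst
              omega
          · by_cases h3 : t + 1 = M
            · rw [if_neg h2, if_pos h3] at hst
              omega
            · rw [if_neg h2, if_neg h3] at hst
              omega
      have hfree : M ≤ {t : ℕ | t < M ∧ z t ∈ Fr ∧ z (t + 1) ∈ Fr}.ncard +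
          ({t : ℕ | t < M ∧ z t ∉ Fr}.ncard + {t : ℕ | t < M ∧ z (t + 1) ∉ Fr}.ncard) := by
        have hsub : (Finset.range M : Set ℕ) ⊆ {t : ℕ | t < M ∧ z t ∈ Fr ∧ z (t + 1) ∈ Fr} ∪
            ({t : ℕ | t < M ∧ z t ∉ Fr} ∪ {t : ℕ | t < M ∧ z (t + 1) ∉ Fr}) := by
          intro t ht
          rw [Finset.coe_range, Set.mem_Iio] at ht
          by_cases h1 : z t ∈ Fr
          · by_cases h2 : z (t + 1) ∈ Fr
            · exact Or.inl ⟨ht, h1, h2⟩
            · exact Or.inr (Or.inr ⟨ht, h2⟩)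
          · exact Or.inr (Or.inl ⟨ht, h1⟩)
        have h1 := Set.ncard_le_ncard hsub
          (((Set.finite_Iio M).subset fun t ht => ht.1).union
          (((Set.finite_Iio M).subset fun t ht => ht.1).union
            ((Set.finite_Iio M).subset fun t ht => ht.1)))
        rw [Set.ncard_coe_finset, Finset.card_range] at h1
        refine h1.trans ((Set.ncard_union_le _ _).trans
          (Nat.add_le_add_left (Set.ncard_union_le _ _) _))
      omega) (fun v => hball v) hN0 (by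
        calc 64 * (2 * n * c) = 128 * (n * c) := by ring
          _ ≤ Nc := hN1)
  let C : SimpleGraph V := fromEdgeSet S
  have hCadj : ∀ u v, C.Adj u v ↔ s(u, v) ∈ S ∧ u ≠ v := by
    intro u v; simp only [C, SimpleGraph.fromEdgeSet_adj]
  have hSE : ∀ u v, s(u, v) ∈ S → ∃ i b, (F i b).Adj u v := by
    intro u v huv
    obtain ⟨j, hj⟩ := hSA _ huv
    exact ⟨_, _, hj⟩
  have hKE : K ≤ ⨆ i, E i := by
    intro u v huv
    obtain ⟨i, hi⟩ := (hKadj u v).1 huv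
    rw [SimpleGraph.iSup_adj]
    exact ⟨i, hi.1⟩
  have hCE : C ≤ ⨆ i, E i := by
    intro u v huv
    obtain ⟨i, b, hi⟩ := hSE u v ((hCadj u v).1 huv).1
    rw [SimpleGraph.iSup_adj]
    exact ⟨i, hFE _ _ hi⟩
  refine ⟨fun i b => (F i b).deleteEdges S, Kc, K, C, ?_, ?_, ?_, ?_, hKc, hKcX, ?_, ?_, ?_, ?_⟩
  · intro i b
    refine ⟨((F i b).deleteEdges_le S).trans (hFE i b), ?_, fun v => ?_⟩
    · have := hSac (e.symm (i, b))
      simpa [A] using this
    · refine (Set.ncard_le_ncard ?_ (Set.toFinite _)).trans (hF2 i b v)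
      intro w hw
      exact (F i b).deleteEdges_le S hw
  · intro i
    exact (hFd i).mono ((F i false).deleteEdges_le S) ((F i true).deleteEdges_le S)
  · intro i b
    rw [disjoint_iff_inf_le]
    intro u v huv
    exfalso
    rw [SimpleGraph.inf_adj, SimpleGraph.sup_adj, SimpleGraph.deleteEdges_adj] at huv
    obtain ⟨⟨h1, h2⟩, h3 | h3⟩ := huv
    · obtain ⟨i', hi'⟩ := (hKadj u v).1 h3
      rw [SimpleGraph.sdiff_adj, SimpleGraph.sup_adj] at hi'
      by_cases hii : i = i'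
      · subst hii
        cases b
        · exact hi'.2 (Or.inl h1)
        · exact hi'.2 (Or.inr h1)
      · have := (hEd i i' hii)
        rw [disjoint_iff_inf_le] at this
        exact this (show (E i ⊓ E i').Adj u v from ⟨hFE _ _ h1, hi'.1⟩)
    · exact h2 ((hCadj u v).1 h3).1
  · apply le_antisymm
    · refine sup_le (iSup_le fun i => ?_) (sup_le hKE hCE)
      refine le_trans (sup_le ?_ ?_) (le_iSup E i)
      · exact ((F i false).deleteEdges_le S).trans (hFE i false)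
      · exact ((F i true).deleteEdges_le S).trans (hFE i true)
    · intro u v huv
      rw [SimpleGraph.iSup_adj] at huv
      obtain ⟨i, hi⟩ := huv
      rw [SimpleGraph.sup_adj, SimpleGraph.sup_adj, SimpleGraph.iSup_adj]
      by_cases hS : s(u, v) ∈ S
      · exact Or.inr (Or.inr ((hCadj u v).2 ⟨hS, hi.ne⟩))
      by_cases h1 : (F i false).Adj u v
      · refine Or.inl ⟨i, Or.inl ?_⟩
        rw [SimpleGraph.deleteEdges_adj]
        exact ⟨h1, hS⟩
      by_cases h2 : (F i true).Adj u v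
      · refine Or.inl ⟨i, Or.inr ?_⟩
        rw [SimpleGraph.deleteEdges_adj]
        exact ⟨h2, hS⟩
      · refine Or.inr (Or.inl ((hKadj u v).2 ⟨i, ?_⟩))
        rw [SimpleGraph.sdiff_adj, SimpleGraph.sup_adj]
        exact ⟨hi, by rintro (h | h); exacts [h1 h, h2 h]⟩
  · intro u v huv
    obtain ⟨i, hi⟩ := (hKadj u v).1 huv
    rcases hkill i u v hi with h1 | h1
    · exact Or.inl ⟨i, v, h1⟩
    · exact Or.inr ⟨i, u, h1⟩
  · have key : ∀ u v, u ∈ Kc → K.Adj u v → ∃ i, kl i u v := by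
      intro u v hu huv
      obtain ⟨i, hi⟩ := (hKadj u v).1 huv
      rcases hkill i u v hi with h1 | h1
      · exact ⟨i, h1⟩
      · exfalso
        have h2 : (E i).Adj v u := (hkl1 i v u h1).2
        refine hKc v ⟨i, u, h1⟩ u hu h2.ne ⟨Walk.cons (hEG i h2) Walk.nil, ?_⟩
        simp
    intro u v v' hu h1 h2
    obtain ⟨i, hi⟩ := key u v hu h1
    obtain ⟨i', hi'⟩ := key u v' hu h2
    exact (hkl2 i u v i' u v' hi hi' ⟨Walk.nil, by simp⟩).2.2
  · intro u v huv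
    have h1 := hSF _ ((hCadj u v).1 huv).1 u (Sym2.mem_mk_left _ _)
    refine ⟨fun y hy hn => h1 (Or.inl ⟨y, hy, hn⟩), ?_⟩
    rintro y (hy | hy) hn
    · exact h1 (Or.inr (Or.inl ⟨y, hy, hn⟩))
    · exact h1 (Or.inr (Or.inr ⟨y, hy, hn⟩))
  · intro u v u' v' h1 h2 hn
    exact hSS _ ((hCadj u v).1 h1).1 _ ((hCadj u' v').1 h2).1 u (Sym2.mem_mk_left _ _) u'
      (Sym2.mem_mk_left _ _) hn

/-- RINNER, unconditional. -/
theorem rinnerAll : RInnerStmt := rinner mainAll' cutAll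

end H53

end Pool.Agent.LAG
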