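import Pool.Agent.Helper22_LLG.Stmt
import Pool.Agent.Helper53_LLG.RInner
import Pool.Agent.Helper53_LLG.FinInner

/-!
# LLG: modules MACH, HCNT and BASE
-/

set_option autoImplicit false

namespace Pool.Agent.LLG.H53

open SimpleGraph Pool.Agent.LAG

variable {V : Type}

/-- Degrees of `A` in a state. -/
lemma deg_A [Fintype V] {A R : SimpleGraph V} {Q : Set V} {k g q : ℕ} (hs : Stt A R Q k g q)
    (v : V) : (A.neighborSet v).ncard ≤ 2 * k + 2 := by
  classical
  have h1 : ((A \ R).neighborSet v).ncard ≤ 2 := by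
    have h2 : insert v ((A \ R).neighborSet v) ⊆ {b | (A \ R).Reachable v b} := by
      rintro b (rfl | hb)
      · exact Reachable.refl _
      · exact Adj.reachable hb
    have h3 := (Set.ncard_le_ncard h2 (Set.toFinite _)).trans (hs.m3 v)
    rw [Set.ncard_insert_of_notMem (by
      intro h; exact (A \ R).loopless.irrefl v h) (Set.toFinite _)] at h3
    omega
  have h2 : A.neighborSet v ⊆ R.neighborSet v ∪ (A \ R).neighborSet v := by
    intro b hb
    by_cases h : R.Adj v b
    · exact Or.inl h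
    · exact Or.inr ⟨hb, h⟩
  have h3 := Set.ncard_le_ncard h2 (Set.toFinite _)
  have h4 := Set.ncard_union_le (R.neighborSet v) ((A \ R).neighborSet v)
  have h5 := hs.deg v
  omega

lemma no_short {A N : SimpleGraph V} {g r : ℕ} (hA : Big A g) (hN : N ≤ A) (hr : r + 1 ≤ g)
    {u w : V} (hadj : N.Adj u w) (hn : near (A \ N) r u w) : False := by
  classical
  obtain ⟨p, hp⟩ := hn
  have hle : A \ N ≤ A := sdiff_le
  have h3 := p.length_bypass_le_length
  have h1 := uniq V A g hA u w (p.bypass.mapLe hle) (Walk.cons (hN hadj) Walk.nil)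
    ((Walk.mapLe_isPath hle).2 p.bypass_isPath)
    (by
      rw [Walk.cons_isPath_iff]
      refine ⟨Walk.IsPath.nil, ?_⟩
      rw [Walk.support_nil, List.mem_singleton]
      exact hadj.ne)
    (by
      rw [Walk.length_cons, Walk.length_nil]
      simp only [Walk.mapLe, Walk.length_map]
      omega)
  have h2 : s(u, w) ∈ (p.bypass.mapLe hle).edges := by
    rw [h1, Walk.edges_cons]
    exact List.mem_cons_self
  rw [Walk.edges_mapLe_eq_edges] at h2
  have h4 := p.bypass.edges_subset_edgeSet h2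
  rw [mem_edgeSet] at h4
  exact h4.2 hadj

/-- MACH -/
theorem mach : MachStmt := by
  intro V _ A R Q Z k T q hH n a ℓ Tm L Nc H hnum hst hHR hHd hH4 hHb hHv hZ hZQ
  classical
  obtain ⟨hI, hT1, hn2, haT, hTm, hNc, hl⟩ := hnum
  have hHA : ∀ t, H t ≤ A := fun t => (hHR t).trans hst.le
  have hNc0 : 1 ≤ Nc := by
    refine le_trans ?_ hNc
    exact Nat.mul_pos (Nat.mul_pos (by norm_num) hT1) (Nat.pow_pos (Nat.succ_pos _))
  obtain ⟨F, Kc, K, C, h1, h2, h3, h4, h5, h6, h7, h8, h9, h10⟩ :=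
    LAG.H53.rinnerAll V A T (2 * k + 2) a hH ℓ Tm L n Nc H Q Z (hst.big.mono (by omega))
      (deg_A hst) hHA hHd hH4 hHb (fun t z hz => by
        have := hHv t z hz
        unfold Heavy Zone at this
        have h : 8 * {t : ℕ | t ≤ n ∧ ∃ x ∈ Q, near A 90 (z t) x}.ncard < n := not_le.1 this
        omega) hZ hI haT hTm (by
        rw [← mul_assoc]
        exact hNc) hNc0 hl
  let e : Fin (2 * T) ≃ Fin T × Bool := (Fintype.equivFinOfCardEq (by
    rw [Fintype.card_prod, Fintype.card_fin, Fintype.card_bool]; ring)).symm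
  have hKle : K ≤ ⨆ t, H t := by
    rw [← h4]
    exact le_sup_left.trans le_sup_right
  have hCle : C ≤ ⨆ t, H t := by
    rw [← h4]
    exact le_sup_right.trans le_sup_right
  have hHA' : (⨆ t, H t) ≤ A := iSup_le hHA
  have hKA := hKle.trans hHA'
  have hCA := hCle.trans hHA'
  -- every killed edge has a killer
  have kill : ∀ u v, K.Adj u v → ∃ x y, s(u, v) = s(x, y) ∧ x ∈ Kc ∧ K.Adj x y ∧
      near A 1 u x := by
    intro u v huv
    rcases h7 u v huv with hu | hv
    · exact ⟨u, v, rfl, hu, huv, near_refl _ _⟩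
    · exact ⟨v, u, Sym2.eq_swap, hv, huv.symm, near_adj (hKA huv)⟩
  have hKK : ∀ u v u' v', K.Adj u v → K.Adj u' v' → near A 1000 u u' →
      s(u, v) = s(u', v') := by
    intro u v u' v' huv huv' hn
    obtain ⟨x, y, hxy, hx, hadj, hnx⟩ := kill u v huv
    obtain ⟨x', y', hxy', hx', hadj', hnx'⟩ := kill u' v' huv'
    have hxx : x = x' := by
      by_contra hne
      exact h5 x hx x' hx' hne (near_mono (by norm_num)
        (near_trans (near_trans (near_symm hnx) hn) hnx'))
    subst hxx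
    rw [hxy, hxy', h8 x y y' hx hadj hadj']
  have hKC : ∀ u v u' v', K.Adj u v → C.Adj u' v' → ¬ near A 91 u u' := by
    intro u v u' v' huv huv' hn
    obtain ⟨x, y, hxy, hx, hadj, hnx⟩ := kill u v huv
    exact (h9 u' v' huv').2 x (Or.inr hx) (near_mono (by norm_num)
      (near_trans (near_symm hn) hnx))
  have hCC : ∀ u v u' v', C.Adj u v → C.Adj u' v' → near A 1000 u u' →
      s(u, v) = s(u', v') := fun u v u' v' h h' hn =>
    h10 u v u' v' h h' (near_mono (by norm_num) hn)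
  refine ⟨fun j => F (e j).1 (e j).2, K ⊔ C, fun j => (h1 _ _).1.trans (le_iSup H _),
    fun j => (h1 _ _).2, sup_le hKle hCle, ?_, ?_, ?_, ?_⟩
  · have : (⨆ j, F (e j).1 (e j).2) = ⨆ i, (F i false ⊔ F i true) := by
      apply le_antisymm
      · refine iSup_le fun j => ?_
        refine le_trans ?_ (le_iSup _ (e j).1)
        rcases Bool.eq_false_or_eq_true (e j).2 with hb | hb
        · rw [hb]; exact le_sup_right
        · rw [hb]; exact le_sup_left
      · refine iSup_le fun i => sup_le ?_ ?_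
        · have := le_iSup (fun j => F (e j).1 (e j).2) (e.symm (i, false))
          simpa using this
        · have := le_iSup (fun j => F (e j).1 (e j).2) (e.symm (i, true))
          simpa using this
    rw [this, h4]
  · rintro u v (huv | huv)
    · obtain ⟨x, y, hxy, hx, hadj, hnx⟩ := kill u v huv
      refine ⟨fun z hz hn => (h6 x hx).1 z hz (near_mono (by norm_num)
        (near_trans (near_symm hnx) hn)), fun z hz hn => (h6 x hx).2 z hz
        (near_mono (by norm_num) (near_trans (near_symm hnx) hn))⟩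
    · refine ⟨fun z hz hn => (h9 u v huv).1 z hz (near_mono (by norm_num) hn),
        fun z hz hn => (h9 u v huv).2 z (Or.inl hz) (near_mono (by norm_num) hn)⟩
  · rintro u v u' v' (huv | huv) (huv' | huv') hne hn
    · exact hne (hKK u v u' v' huv huv' (near_mono (by norm_num) hn))
    · exact hKC u v u' v' huv huv' (near_mono (by norm_num) hn)
    · exact hKC u' v' u v huv' huv (near_mono (by norm_num) (near_symm hn))
    · exact hne (hCC u v u' v' huv huv' (near_mono (by norm_num) hn))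
  · intro v
    have hNA : K ⊔ C ≤ A := sup_le hKA hCA
    have hle : A \ (K ⊔ C) ≤ A := sdiff_le
    have key : ∀ S : SimpleGraph V, S ≤ K ⊔ C → (∀ u v u' v', S.Adj u v → S.Adj u' v' →
        near A 1000 u u' → s(u, v) = s(u', v')) →
        {u | (∃ w, S.Adj u w) ∧ near (A \ (K ⊔ C)) 93 u v}.ncard ≤ 1 := by
      intro S hS hSS
      rw [Set.ncard_le_one (Set.toFinite _)]
      rintro u ⟨⟨w, hw⟩, hu⟩ u' ⟨⟨w', hw'⟩, hu'⟩
      have hn : near (A \ (K ⊔ C)) 186 u u' :=
        near_mono (by norm_num) (near_trans hu (near_symm hu'))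
      have h := hSS u w u' w' hw hw' (near_mono (by norm_num) (near_le hle hn))
      rcases Sym2.eq_iff.1 h with ⟨h1, _⟩ | ⟨h1, h2⟩
      · exact h1
      · exfalso
        rw [← h2] at hn
        exact no_short (g := 4100) (r := 186) hst.big hNA (by norm_num) (hS hw) hn
    have hsub : {u | (∃ w, (K ⊔ C).Adj u w) ∧ near (A \ (K ⊔ C)) 93 u v} ⊆
        {u | (∃ w, K.Adj u w) ∧ near (A \ (K ⊔ C)) 93 u v} ∪
        {u | (∃ w, C.Adj u w) ∧ near (A \ (K ⊔ C)) 93 u v} := by
      rintro u ⟨⟨w, hw | hw⟩, hu⟩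
      · exact Or.inl ⟨⟨w, hw⟩, hu⟩
      · exact Or.inr ⟨⟨w, hw⟩, hu⟩
    have k1 := key K le_sup_left hKK
    have k2 := key C le_sup_right hCC
    have k3 := Set.ncard_le_ncard hsub (Set.toFinite _)
    have k4 := Set.ncard_union_le {u | (∃ w, K.Adj u w) ∧ near (A \ (K ⊔ C)) 93 u v}
      {u | (∃ w, C.Adj u w) ∧ near (A \ (K ⊔ C)) 93 u v}
    omega

/-- HCNT -/
theorem hcnt : HcntStmt := by
  intro V _ A R Q k q n p u v hk hqk hRA hdeg hbig hq hp
  classical
  have hkR : (1 : ℝ) ≤ k := by exact_mod_cast hk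
  rcases Nat.lt_or_ge n 4000 with hn | hn
  · rw [Nat.div_eq_of_lt hn, pow_zero, mul_one]
    have h1 := LAG.H53.pcntD V A R Set.univ 0 (2 * k) (Fintype.card V)
      (hbig.mono (by norm_num)) hRA hdeg (fun w => by
        refine (Set.ncard_le_ncard (Set.subset_univ _) (Set.toFinite _)).trans ?_
        rw [Set.ncard_univ, Nat.card_eq_fintype_card]) n p 0 u v hp
    have h2 : Nat.card {z : Fin (n + 1) → V // IsP R (cyc z) n ∧ Heavy A Q (cyc z) n ∧
        cyc z p = u ∧ cyc z (p + 1) = v} ≤ 2 ^ n * (2 * k) ^ n := by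
      refine le_trans (Nat.card_le_card_of_injective (fun z => (⟨z.1, z.2.1, z.2.2.2, ?_⟩ :
        {z : Fin (n + 1) → V // IsP R (cyc z) n ∧ (cyc z p = u ∧ cyc z (p + 1) = v) ∧
          (0 + 1) * (2 * 0 + 1) < {t : ℕ | t ≤ n ∧ ∃ x ∈ Set.univ,
            near A 0 (cyc z t) x}.ncard})) ?_) (h1.trans ?_)
      · have h3 : {t : ℕ | t ≤ n ∧ ∃ x ∈ Set.univ, near A 0 (cyc z.1 t) x} =
            (Finset.range (n + 1) : Finset ℕ) := by
          ext t
          simp only [Set.mem_ofPred_eq, Finset.coe_range, Set.mem_Iio]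
          exact ⟨fun h => by omega, fun h => ⟨by omega, _, Set.mem_univ _, near_refl _ _⟩⟩
        rw [h3, Set.ncard_coe_finset, Finset.card_range]
        omega
      · intro z z' h
        simp only [Subtype.mk.injEq] at h
        exact Subtype.ext h
      · refine Nat.mul_le_mul_left _ ?_
        rw [pow_zero, one_mul]
        exact Nat.pow_le_pow_right (by omega) (by omega)
    calc (Nat.card {z : Fin (n + 1) → V // IsP R (cyc z) n ∧ Heavy A Q (cyc z) n ∧
        cyc z p = u ∧ cyc z (p + 1) = v} : ℝ) ≤ ((2 ^ n * (2 * k) ^ n : ℕ) : ℝ) := by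
          exact_mod_cast h2
      _ = 2 ^ n * (2 * (k : ℝ)) ^ n := by push_cast; ring
  · set e := n / 4000 with he
    have h1 := LAG.H53.pcntD V A R Q 90 (2 * k) q (hbig.mono (by norm_num)) hRA hdeg
      (fun w => by
        refine (Set.ncard_le_ncard ?_ (Set.toFinite _)).trans (hq w)
        rintro x ⟨hx, hn⟩
        exact ⟨hx, near_mono (by norm_num) (near_symm hn)⟩) n p e u v hp
    have h2 : Nat.card {z : Fin (n + 1) → V // IsP R (cyc z) n ∧ Heavy A Q (cyc z) n ∧
        cyc z p = u ∧ cyc z (p + 1) = v} ≤ 2 ^ n * (q ^ e * (2 * k) ^ (n - 1 - e)) := by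
      refine le_trans (Nat.card_le_card_of_injective (fun z => (⟨z.1, z.2.1, z.2.2.2, ?_⟩ :
        {z : Fin (n + 1) → V // IsP R (cyc z) n ∧ (cyc z p = u ∧ cyc z (p + 1) = v) ∧
          (e + 1) * (2 * 90 + 1) < {t : ℕ | t ≤ n ∧ ∃ x ∈ Q,
            near A 90 (cyc z t) x}.ncard})) ?_) h1
      · have h3 := z.2.2.1
        unfold Heavy Zone at h3
        have h4 : n ≤ 8 * {t : ℕ | t ≤ n ∧ ∃ x ∈ Q, near A 90 (cyc z.1 t) x}.ncard := h3
        omega
      · intro z z' h
        simp only [Subtype.mk.injEq] at h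
        exact Subtype.ext h
    have h3 : (2 * (k : ℝ)) ^ (n - 1 - e) ≤ (2 * (k : ℝ)) ^ n / (2 * (k : ℝ)) ^ e := by
      rw [le_div_iff₀ (by positivity), ← pow_add]
      exact pow_le_pow_right₀ (by linarith) (by omega)
    calc (Nat.card {z : Fin (n + 1) → V // IsP R (cyc z) n ∧ Heavy A Q (cyc z) n ∧
        cyc z p = u ∧ cyc z (p + 1) = v} : ℝ)
        ≤ ((2 ^ n * (q ^ e * (2 * k) ^ (n - 1 - e)) : ℕ) : ℝ) := by exact_mod_cast h2
      _ = 2 ^ n * ((q : ℝ) ^ e * (2 * (k : ℝ)) ^ (n - 1 - e)) := by push_cast; ring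
      _ ≤ 2 ^ n * ((q : ℝ) ^ e * ((2 * (k : ℝ)) ^ n / (2 * (k : ℝ)) ^ e)) := by gcongr
      _ = 2 ^ n * (2 * (k : ℝ)) ^ n * ((q : ℝ) / (2 * k)) ^ e := by
          rw [div_pow]; ring

/-- BASE -/
theorem base : BaseStmt := by
  intro k h q hk hnum V _ A R Q hs
  classical
  have hR : A \ (A \ R) = R := by
    ext u v
    simp only [SimpleGraph.sdiff_adj]
    exact ⟨fun h => by by_contra h'; exact h.2 ⟨h.1, h'⟩, fun h => ⟨hs.le h, fun h' => h'.2 h⟩⟩
  have hle : A \ R ≤ A := sdiff_le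
  obtain ⟨F, N, h1, h2, h3, h4, h5⟩ := LAG.H53.finInnerAll V A (A \ R) Q (2 * k + 2) h k
    (deg_A hs) (by
      calc 2 ^ 273 * (2 * k + 2 + 2) ^ 122 = 2 ^ 273 * (2 * k + 4) ^ 122 := rfl
        _ ≤ _ := hnum) hs.big hle hs.m2 hs.m3 hs.sep (fun v => by rw [hR]; exact hs.deg v)
    (by omega)
  rw [hR] at h2
  refine ⟨F, N, fun i => ⟨?_, h1 i⟩, ?_, h2, ?_, h5⟩
  · rw [← h2]
    exact (le_iSup F i).trans le_sup_left
  · rw [← h2]
    exact le_sup_right
  · intro u v huv x hx hr
    exact h4 u v huv x hx (near_mono (by norm_num) (near_le hle (hs.m2 _ _ hr)))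

end Pool.Agent.LLG.H53
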