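import Pool.Agent.Helper76_LAG.All
import Pool.Agent.Helper53_LLG.Jnt

/-!
# LLG: splitting of graphs of maximum degree four (inner machine of LAG), general form

Only the graphs `H q` of maximum degree four need large girth; the conflict relation `N` for the
vertices which kill edges and the set `al` of the vertices which are allowed to kill are arbitrary.
-/

set_option autoImplicit false

namespace Pool.Agent.LAG

open SimpleGraph

/-- MAIN': all graphs `H q` of maximum degree four and of large girth are split into two graphs of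
maximum degree two without short cycles, after removal of some edges. Every removed edge has a
killer, one of its two ends, which is in `al q`; the killers of different removed edges are not in
conflict. -/
def Main'Stmt : Prop := ∀ (V : Type) [Fintype V] (B a h ℓ T L : ℕ), Num' B a h ℓ T L →
    ∀ N : V → V → Prop, (∀ x y, N x y → N y x) → (∀ x, N x x) →
    ∀ (Q : Type) [Fintype Q], (∀ v, Fintype.card Q * Nat.card {x : V // N x v} ≤ B) →
    ∀ H : Q → SimpleGraph V, (∀ q, Big (H q) (2 * h)) →
    (∀ q v, ((H q).neighborSet v).ncard ≤ 4) →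
    ∀ al : Q → Set V,
    (∀ q z, IsP (H q) z T → a ≤ {t : ℕ | 0 < t ∧ t < T ∧ z t ∈ al q}.ncard) →
    ∃ (F : Q → Bool → SimpleGraph V) (kl : Q → V → V → Prop), (∀ q c, F q c ≤ H q) ∧
      (∀ q, Disjoint (F q false) (F q true)) ∧
      (∀ q c v, ((F q c).neighborSet v).ncard ≤ 2) ∧ (∀ q c, Big (F q c) ℓ) ∧
      (∀ q u v, (H q \ (F q false ⊔ F q true)).Adj u v → kl q u v ∨ kl q v u) ∧
      (∀ q u v, kl q u v → u ∈ al q ∧ (H q).Adj u v) ∧
      (∀ q u v q' u' v', kl q u v → kl q' u' v' → N u u' → q = q' ∧ u = u' ∧ v = v')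

namespace H53

theorem main' (hjnt : Jnt'Stmt) (hslot : SlotStmt) (hsega : SegaStmt)
    (hdeg : DegStmt) (hded : DedStmt) : Main'Stmt := by
  intro V _ B a h ℓ T L hnum N hNs hNr Q _ hB H hH hdH al hal
  have hE : ∀ q, ∃ E : Env V, E.H = H q ∧ E.al = fun v => v ∈ al q :=
    fun q => hslot V (H q) _ (hdH q)
  choose E hEH hEal using hE
  obtain ⟨ω, hω1, hω2⟩ := hjnt V B a h ℓ T L hnum N hNs Q hB E
    (fun q => by rw [hEH q]; exact hH q)
    (fun q z hz => by
      rw [hEH q] at hz
      rw [hEal q]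
      exact hal q z hz)
  refine ⟨fun q c => CG (E q) (ω q) T c,
    fun q u v => (H q).Adj u v ∧ Kil (E q) (ω q) u v, ?_, ?_, ?_, ?_, ?_, ?_, ?_⟩
  · intro q c u v huv
    rw [← hEH q]
    exact huv.1.1
  · intro q
    rw [← disjoint_edgeSet, Set.disjoint_left]
    intro e
    induction e with
    | _ u v =>
      intro h0 h1
      rw [mem_edgeSet] at h0 h1
      have h2 := h0.2.1
      rw [h1.2.1] at h2
      exact absurd h2 (by decide)
  · intro q c v
    exact hdeg V L T (E q) (ω q) (hω1 q).1 c v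
  · intro q c
    exact hded V L T ℓ (E q) (ω q) (hω1 q).1 (hω1 q).2 c
  · intro q u v h1
    rw [← hEH q] at h1
    obtain ⟨x, y, hxy, hadj, hk⟩ := MainM.killer hsega (E q) (ω q) (hω1 q).1 u v h1
    rw [hEH q] at hadj
    rcases hxy with ⟨rfl, rfl⟩ | ⟨rfl, rfl⟩
    · exact Or.inl ⟨hadj, hk⟩
    · exact Or.inr ⟨hadj, hk⟩
  · rintro q u v ⟨h1, h2⟩
    have h3 := h2.1
    rw [hEal q] at h3
    exact ⟨h3, h1⟩
  · rintro q x y q' x' y' ⟨hadj, hk⟩ ⟨hadj', hk'⟩ hn
    have hlt : (ω q x).1.2.val < 4 := by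
      rw [hk.2]; exact ((E q).slot x y).isLt
    have hlt' : (ω q' x').1.2.val < 4 := by
      rw [hk'.2]; exact ((E q').slot x' y').isLt
    have heq : (q, x) = (q', x') := by
      by_contra hne'
      exact hω2 q x q' x' hne' hn ⟨hlt, hlt'⟩
    rw [Prod.mk.injEq] at heq
    obtain ⟨rfl, rfl⟩ := heq
    have hsl : (E q).slot x y = (E q).slot x y' := by
      apply Fin.ext
      rw [← hk.2, ← hk'.2]
    rw [← hEH q] at hadj hadj'
    exact ⟨rfl, rfl, (E q).slot_inj x y y' hadj hadj' hsl⟩

theorem jntAll' : Jnt'Stmt :=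
  jnt' alll prd lift tam stop card
    (sumB cntP (cntC uniqS cycLen) rch (prb (tau prd) bit))
    (sum2 cntP prd) (sum3 (cntC uniqS cycLen) prd)

/-- The inner machine, unconditional. -/
theorem mainAll' : Main'Stmt :=
  main' jntAll' slot sega (deg sega) (ded (deda sega segb) (dedb sega))

end H53

end Pool.Agent.LAG
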